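import Pool.Agent.Y116.UV.ZetaG
import Pool.Agent.Y116.UV.Graph

/-!
# Meromorphic continuation of zeta functions is closed under closed-open decompositions
-/

set_option autoImplicit false

open CategoryTheory AlgebraicGeometry TopologicalSpace

namespace Pool.Agent.Y116.UV

section Adm

variable {S S' : Type}

lemma Adm.equiv {N : S → ℕ} {N' : S' → ℕ} {g : ℕ} (e : S ≃ S') (he : ∀ x, N' (e x) = N x)
    (h : Adm N g) : Adm N' g := by
  have key : ∀ q, {y | N' y = q} = e '' {x | N x = q} := by
    intro q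
    ext y
    constructor
    · intro hy
      refine ⟨e.symm y, ?_, e.apply_symm_apply y⟩
      change N (e.symm y) = q
      rw [← he, e.apply_symm_apply]
      exact hy
    · rintro ⟨x, hx, rfl⟩
      exact (he x).trans hx
  refine ⟨fun y => ?_, fun q => ?_, fun q => ?_⟩
  · rw [← e.apply_symm_apply y, he]
    exact h.two _
  · rw [key]
    exact (h.fin q).image _
  · rw [key, Set.ncard_image_of_injective _ e.injective]
    exact h.bound q

lemma Adm.left {N : S → ℕ} {N' : S' → ℕ} {g : ℕ} (h : Adm (Sum.elim N N') g) : Adm N g := by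
  have key : ∀ q, Sum.inl '' {x | N x = q} ⊆ {y | Sum.elim N N' y = q} := by
    rintro q _ ⟨x, hx, rfl⟩
    exact hx
  refine ⟨fun x => h.two (Sum.inl x), fun q => ?_, fun q => ?_⟩
  · exact Set.Finite.of_finite_image ((h.fin q).subset (key q)) Sum.inl_injective.injOn
  · rw [← Set.ncard_image_of_injective _ (Sum.inl_injective (β := S'))]
    exact (Set.ncard_le_ncard (key q) (h.fin q)).trans (h.bound q)

lemma Adm.right {N : S → ℕ} {N' : S' → ℕ} {g : ℕ} (h : Adm (Sum.elim N N') g) : Adm N' g := by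
  have h2 : Adm (Sum.elim N' N) g := by
    refine h.equiv (Equiv.sumComm S S') ?_
    rintro (x | x)
    · rfl
    · rfl
  exact h2.left

lemma Adm.sum {N : S → ℕ} {N' : S' → ℕ} {g g' : ℕ} (h : Adm N g) (h' : Adm N' g') :
    Adm (Sum.elim N N') (max g g' + 1) := by
  have key : ∀ q, {y | Sum.elim N N' y = q} ⊆
      Sum.inl '' {x | N x = q} ∪ Sum.inr '' {x | N' x = q} := by
    rintro q (x | x) hx
    · exact Or.inl ⟨x, hx, rfl⟩
    · exact Or.inr ⟨x, hx, rfl⟩
  have hfin : ∀ q, (Sum.inl '' {x | N x = q} ∪ Sum.inr '' {x | N' x = q}).Finite := fun q =>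
    ((h.fin q).image _).union ((h'.fin q).image _)
  refine ⟨?_, fun q => (hfin q).subset (key q), fun q => ?_⟩
  · rintro (x | x)
    · exact h.two x
    · exact h'.two x
  · by_cases hq : 2 ≤ q
    · calc {y | Sum.elim N N' y = q}.ncard
          ≤ (Sum.inl '' {x | N x = q} ∪ Sum.inr '' {x | N' x = q}).ncard :=
            Set.ncard_le_ncard (key q) (hfin q)
        _ ≤ (Sum.inl '' {x | N x = q}).ncard + (Sum.inr '' {x | N' x = q}).ncard :=
            Set.ncard_union_le _ _
        _ ≤ q ^ g + q ^ g' := by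
            rw [Set.ncard_image_of_injective _ Sum.inl_injective,
              Set.ncard_image_of_injective _ Sum.inr_injective]
            exact Nat.add_le_add (h.bound q) (h'.bound q)
        _ ≤ q ^ max g g' + q ^ max g g' :=
            Nat.add_le_add (Nat.pow_le_pow_right (by omega) (le_max_left _ _))
              (Nat.pow_le_pow_right (by omega) (le_max_right _ _))
        _ = 2 * q ^ max g g' := by ring
        _ ≤ q * q ^ max g g' := Nat.mul_le_mul_right _ hq
        _ = q ^ (max g g' + 1) := by rw [pow_succ, mul_comm]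
    · have h1 : {y | Sum.elim N N' y = q} = ∅ := by
        ext y
        constructor
        · intro hy
          have hy' : Sum.elim N N' y = q := hy
          have h2 : 2 ≤ Sum.elim N N' y := by
            rcases y with x | x
            · exact h.two x
            · exact h'.two x
          exact absurd (hy' ▸ h2) hq
        · intro hy
          exact absurd hy (Set.notMem_empty y)
      rw [h1, Set.ncard_empty]
      exact Nat.zero_le _

end Adm

/-- The zeta function of `X` extends to a meromorphic function. -/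
def ZM (X : Sch ℤ) : Prop := Mero (nrm X.left)

/-- The closed points are an admissible system. -/
def HasAdm (X : Sch ℤ) : Prop := ∃ g, Adm (nrm X.left) g

instance : JacobsonSpace (Spec (.of ℤ)) := by
  have := Pool.Agent.TH789.LT.jac_int
  infer_instance

lemma jacobson {sep : Prop} {X : Sch ℤ} (hX : FT sep X) : JacobsonSpace X.left := by
  have := hX.locallyOfFiniteType
  exact LocallyOfFiniteType.jacobsonSpace X.hom

/-- closed points of isomorphic schemes -/
noncomputable def ptsIso {X Y : Scheme.{0}} (e : X ≅ Y) : pts X ≃ pts Y :=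
  Equiv.ofBijective (fun x => ⟨e.hom x.1, (isClosed_iff_closed e.hom x.1).mpr x.2⟩) (by
    constructor
    · intro x x' h
      exact Subtype.ext (e.hom.isClosedEmbedding.injective (congrArg Subtype.val h))
    · rintro ⟨y, hy⟩
      obtain ⟨x, rfl⟩ := e.hom.surjective y
      exact ⟨⟨x, (isClosed_iff_closed e.hom x).mp hy⟩, rfl⟩)

lemma nrm_ptsIso {X Y : Scheme.{0}} (e : X ≅ Y) (x : pts X) : nrm Y (ptsIso e x) = nrm X x :=
  card_residue e.hom x.1

lemma leftIso {X Y : Sch ℤ} (e : X ≅ Y) : Nonempty (X.left ≅ Y.left) :=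
  ⟨(Over.forget _).mapIso e⟩

lemma ft_jou (R : Type) [CommRing R] {A : Type} [CommRing A] [Algebra R A]
    [Algebra.FiniteType R A] {m : ℕ} (f : Fin m → A) : Algebra.FiniteType R (Jou f) := by
  have h1 : Algebra.FiniteType R (MvPolynomial (Fin m) A) :=
    Algebra.FiniteType.trans (S := A) inferInstance inferInstance
  infer_instance

/-- the equivalence of the closed points of a decomposition -/
noncomputable def ptsTriple {Z X U : Sch ℤ} {i : Z ⟶ X} {j : U ⟶ X} (hX : FT False X)
    (h : IsTriple i j) : pts Z.left ⊕ pts U.left ≃ pts X.left :=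
  haveI := jacobson hX
  haveI := h.closed
  haveI := h.opened
  Equiv.ofBijective (ptsMap i.left j.left) (ptsMap_bijective i.left j.left h.compl)

lemma nrm_ptsTriple {Z X U : Sch ℤ} {i : Z ⟶ X} {j : U ⟶ X} (hX : FT False X)
    (h : IsTriple i j) (x : pts Z.left ⊕ pts U.left) :
    nrm X.left (ptsTriple hX h x) = Sum.elim (nrm Z.left) (nrm U.left) x :=
  haveI := jacobson hX
  haveI := h.closed
  haveI := h.opened
  nrm_ptsMap i.left j.left x

lemma nrm_ptsTriple' {Z X U : Sch ℤ} {i : Z ⟶ X} {j : U ⟶ X} (hX : FT False X)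
    (h : IsTriple i j) (x : pts X.left) :
    Sum.elim (nrm Z.left) (nrm U.left) ((ptsTriple hX h).symm x) = nrm X.left x := by
  rw [← nrm_ptsTriple hX h, Equiv.apply_symm_apply]

lemma nrm_ptsAff' {A : Type} [CommRing A] (x : mx (Set.univ : Set (Ideal A))) :
    nrm (Spec (.of A)) (ptsAff.symm x) = nm Set.univ x := by
  rw [← nm_ptsAff, Equiv.apply_symm_apply]

/-- Every scheme of finite type over `ℤ` has an admissible system of closed points. -/
theorem adm_all (X : Sch ℤ) (hX : FT False X) : HasAdm X := by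
  refine of_affine' (P := HasAdm) ?_ ?_ ?_ X hX
  · rintro X Y _ ⟨e⟩ ⟨g, hg⟩
    obtain ⟨e'⟩ := leftIso e
    exact ⟨g, hg.equiv (ptsIso e') (nrm_ptsIso e')⟩
  · rintro Z X U i j hX h ⟨g, hg⟩ ⟨g', hg'⟩
    exact ⟨_, (hg.sum hg').equiv (ptsTriple hX h) (nrm_ptsTriple hX h)⟩
  · intro A _ _ hA
    have := ftz hA
    obtain ⟨g, hg⟩ := exists_adm (Set.univ : Set (Ideal A))
    exact ⟨g, hg.equiv ptsAff.symm nrm_ptsAff'⟩

lemma adm_triple {Z X U : Sch ℤ} {i : Z ⟶ X} {j : U ⟶ X} (hX : FT False X)
    (h : IsTriple i j) : ∃ g, Adm (nrm Z.left) g ∧ Adm (nrm U.left) g := by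
  obtain ⟨g, hg⟩ := adm_all X hX
  have h1 := hg.equiv (ptsTriple hX h).symm (nrm_ptsTriple' hX h)
  exact ⟨g, h1.left, h1.right⟩

lemma zm_aff {A : Type} [CommRing A] [Algebra ℤ A] :
    ZM (aff ℤ A) ↔ Mero (nm (Set.univ : Set (Ideal A))) :=
  ⟨fun h => Mero.equiv ptsAff nm_ptsAff h, fun h => Mero.equiv ptsAff.symm nrm_ptsAff' h⟩

lemma mero_ne {A : Type} [CommRing A] {m : ℕ} (f : Fin m → A) [JacobsonSpace (Spec (.of A))]
    (U : Scheme.{0}) (j : U ⟶ Spec (.of A)) (hj : IsOpenImmersion j)
    (hr : Set.range j = {x : PrimeSpectrum A | ∃ l, f l ∉ x.asIdeal})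
    (h : Mero (nm (neS f))) : Mero (nrm U) := by
  refine Mero.equiv (Equiv.ofBijective _ (ptsNe_bijective f j hr)).symm ?_ h
  intro x
  rw [← nm_ptsNe f j hr]
  congr 1
  exact (Equiv.ofBijective _ (ptsNe_bijective f j hr)).apply_symm_apply x

/-- Meromorphic continuation is closed under closed-open decompositions, affine bundles and passing
from `X × 𝔾_m` to `X`. -/
theorem uni_zm : Uni False ZM where
  iso := by
    rintro X Y _ ⟨e⟩ h
    obtain ⟨e'⟩ := leftIso e
    exact Mero.equiv (ptsIso e') (nrm_ptsIso e') h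
  total := by
    intro Z X U i j hX h hZ hU
    obtain ⟨g, hg, hg'⟩ := adm_triple hX h
    exact (Mero.sum hg hg' hZ hU).equiv (ptsTriple hX h) (nrm_ptsTriple hX h)
  opened := by
    intro Z X U i j hX h hZ hX'
    obtain ⟨g, hg, hg'⟩ := adm_triple hX h
    exact Mero.right hg hg' (Mero.equiv (ptsTriple hX h).symm (nrm_ptsTriple' hX h) hX') hZ
  closed := by
    intro Z X U i j hX h hX' hU
    obtain ⟨g, hg, hg'⟩ := adm_triple hX h
    exact Mero.left hg hg' (Mero.equiv (ptsTriple hX h).symm (nrm_ptsTriple' hX h) hX') hU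
  space n := zm_aff.mpr (mero_space n)
  jouanolou := by
    intro A _ _ hA m f U j hj hr h
    have h1 := ftz (ft_jou ℤ f)
    have h2 := ftz hA
    obtain ⟨g, hg⟩ := exists_adm (neS f)
    obtain ⟨g', hg'⟩ := exists_adm (Set.univ : Set (Ideal (Jou f)))
    have h3 : Mero (nm (neS f)) := by
      refine (zm_aff.mp h).shift hg hg' (m - 1) (co_compare _ _ (fun q => (q : ℂ) ^ (m - 1)) ?_)
      intro F _ _
      rw [card_jou]
      push_cast
      ring
    have hJ : JacobsonSpace (Spec (.of A)) := jacobson (ft_aff (A := A) False)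
    exact mero_ne f U.left j.left hj hr h3
  torus := by
    intro A _ _ hA h
    have h1 := ftz (ft_laurent (R := ℤ) A)
    have h2 := ftz hA
    obtain ⟨g, hg⟩ := exists_adm (Set.univ : Set (Ideal A))
    obtain ⟨g', hg'⟩ := exists_adm (Set.univ : Set (Ideal (LaurentPolynomial A)))
    refine zm_aff.mpr ((zm_aff.mp h).torus hg hg' (co_compare _ _ (fun q => (q : ℂ) - 1) ?_))
    intro F _ _
    exact card_tor F

/-- Reduction to the hypersurfaces of tripartite hypergraphs. -/
theorem zm_all (h : ∀ (a b c : ℕ) (H : Finset (Fin a × Fin b × Fin c)), ZM (tripS ℤ H))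
    (X : Sch ℤ) (hX : FT False X) : ZM X :=
  universal_int (fun n => ⟨n, Int.cast_id⟩) uni_zm h X hX

end Pool.Agent.Y116.UV
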