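import Pool.Agent.Y116.UV.TBDefs
import Pool.Agent.Y116.UV.Graph
import Pool.Agent.Y116.UV.Space
import Pool.Agent.W495.FM.HomFive

/-!
# The conjecture of Tate and Beilinson is closed under closed-open decompositions
-/

set_option autoImplicit false

open CategoryTheory AlgebraicGeometry MvPolynomial

namespace Pool.Agent.Y116.UV

open Pool.Agent.W495.FM (Node Arrow five good_retract)

variable {k Ω : Type} [Field k] [Field Ω] [CharZero Ω] {T : Homology k Ω}

/-- The groups of `X` in degree `i`, twist `j`. -/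
def nd (hT : IsHomology T) (X : Sch k) (i j : ℤ) : Node Ω :=
  haveI := hT.finite X i j
  { M := T.M X i j
    E := T.E X i j
    φ := T.frob X i j
    ρ := T.reg X i j
    inv := hT.frob_reg X i j }

lemma tb_iff_good (hT : IsHomology T) (X : Sch k) : TB T X ↔ ∀ i j, (nd hT X i j).Good := by
  unfold TB
  refine forall_congr' fun i => forall_congr' fun j => ?_
  rw [(nd hT X i j).good_iff]
  exact Iff.rfl

/-- Arrows from homomorphisms. -/
def ar (hT : IsHomology T) {X X' : Sch k} {i j i' j' : ℤ} (h : HHom T X i j X' i' j') :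
    Arrow (nd hT X i j) (nd hT X' i' j') where
  f := h.f
  g := h.g
  comm := h.reg
  frob := h.frob

lemma tb_clo (hT : IsHomology T) {Z X U : Sch k} (h : HasSequence T Z X U)
    (hX : TB T X) (hU : TB T U) : TB T Z := by
  rw [tb_iff_good hT] at hX hU ⊢
  intro i j
  obtain ⟨a, b, d, h⟩ := h j
  exact five (ar hT (b (i + 1))) (ar hT (d i)) (ar hT (a i)) (ar hT (b i))
    (h i).2.1.1 (h i).2.2.1 (h i).1.1 (h i).2.1.2 (h i).2.2.2 (h i).1.2
    (hX (i + 1) j) (hU (i + 1) j) (hX i j) (hU i j)

lemma tb_tot (hT : IsHomology T) {Z X U : Sch k} (h : HasSequence T Z X U)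
    (hZ : TB T Z) (hU : TB T U) : TB T X := by
  rw [tb_iff_good hT] at hZ hU ⊢
  intro i j
  obtain ⟨i, rfl⟩ : ∃ k, i = k + 1 := ⟨i - 1, by ring⟩
  obtain ⟨a, b, d, h⟩ := h j
  exact five (ar hT (d (i + 1))) (ar hT (a (i + 1))) (ar hT (b (i + 1))) (ar hT (d i))
    (h (i + 1)).2.2.1 (h (i + 1)).1.1 (h i).2.1.1 (h (i + 1)).2.2.2 (h (i + 1)).1.2
    (h i).2.1.2 (hU (i + 1 + 1) j) (hZ (i + 1) j) (hU (i + 1) j) (hZ i j)

lemma tb_opn (hT : IsHomology T) {Z X U : Sch k} (h : HasSequence T Z X U)
    (hZ : TB T Z) (hX : TB T X) : TB T U := by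
  rw [tb_iff_good hT] at hZ hX ⊢
  intro i j
  obtain ⟨i, rfl⟩ : ∃ k, i = k + 1 := ⟨i - 1, by ring⟩
  obtain ⟨a, b, d, h⟩ := h j
  exact five (ar hT (a (i + 1))) (ar hT (b (i + 1))) (ar hT (d i)) (ar hT (a i))
    (h (i + 1)).1.1 (h i).2.1.1 (h i).2.2.1 (h (i + 1)).1.2 (h i).2.1.2 (h i).2.2.2
    (hZ (i + 1) j) (hX (i + 1) j) (hZ i j) (hX i j)

lemma tb_ret (hT : IsHomology T) {X Y : Sch k} {r : ℤ} (h : HasRetraction T X Y r)
    (hY : TB T Y) : TB T X := by
  rw [tb_iff_good hT] at hY ⊢
  intro i j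
  obtain ⟨s, t, h1, h2⟩ := h i j
  exact good_retract (ar hT s) (ar hT t) h1 h2 (hY _ _)

/-- the inverse homomorphism -/
noncomputable def hinv {X Y : Sch k} {i j i' j' : ℤ} (s : HHom T X i j Y i' j')
    (hf : Function.Bijective s.f) (hg : Function.Bijective s.g) : HHom T Y i' j' X i j where
  f := (AddEquiv.ofBijective s.f hf).symm
  g := (LinearEquiv.ofBijective s.g hg).symm
  reg y := by
    apply hg.1
    have h1 : s.f ((AddEquiv.ofBijective s.f hf).symm y) = y :=
      (AddEquiv.ofBijective s.f hf).apply_symm_apply y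
    have h2 : s.g ((LinearEquiv.ofBijective s.g hg).symm (T.reg Y i' j' y)) = T.reg Y i' j' y :=
      (LinearEquiv.ofBijective s.g hg).apply_symm_apply _
    refine ((s.reg _).symm.trans ?_).trans h2.symm
    exact congrArg _ h1
  frob y := by
    apply hg.1
    have h2 : ∀ y, s.g ((LinearEquiv.ofBijective s.g hg).symm y) = y := fun y =>
      (LinearEquiv.ofBijective s.g hg).apply_symm_apply y
    refine ((s.frob _).symm.trans ?_).trans (h2 _).symm
    exact congrArg _ (h2 y)

lemma tb_iso (hT : IsHomology T) {X Y : Sch k} {r : ℤ} (h : HasIso T X Y r) :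
    TB T X ↔ TB T Y := by
  constructor
  · intro hX
    rw [tb_iff_good hT] at hX ⊢
    intro i j
    obtain ⟨i, rfl⟩ : ∃ l, i = l + 2 * r := ⟨i - 2 * r, by ring⟩
    obtain ⟨j, rfl⟩ : ∃ l, j = l + r := ⟨j - r, by ring⟩
    obtain ⟨s, hf, hg⟩ := h i j
    refine good_retract (ar hT (hinv s hf hg)) (ar hT s) ?_ ?_ (hX _ _)
    · intro x
      exact (AddEquiv.ofBijective s.f hf).apply_symm_apply x
    · intro x
      exact (LinearEquiv.ofBijective s.g hg).apply_symm_apply x
  · intro hY
    apply tb_ret hT (r := r) _ hY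
    intro i j
    obtain ⟨s, hf, hg⟩ := h i j
    refine ⟨s, hinv s hf hg, ?_, ?_⟩
    · intro x
      exact (AddEquiv.ofBijective s.f hf).symm_apply_apply x
    · intro x
      exact (LinearEquiv.ofBijective s.g hg).symm_apply_apply x

lemma tb_space (hT : IsHomology T) (n : ℕ) : TB T (aff k (MvPolynomial (Fin n) k)) := by
  have h := hT.bundle k (n + 1) (f1 k n) (aff k k) (𝟙 _) inferInstance (range_id n)
  have h2 := (tb_iso hT h).mp hT.point
  have h3 := hT.iso (ft_aff True) ⟨(affIso (jouOne k n)).symm⟩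
  exact (tb_iso hT h3).mp h2

/-- The conjecture of Tate and Beilinson is closed under closed-open decompositions, affine bundles and
passing from `X × 𝔾_m` to `X`. -/
theorem uni_tb (hT : IsHomology T) : Uni True (TB T) where
  iso h e hX := (tb_iso hT (hT.iso h e)).mp hX
  total i j h ht hZ hU := tb_tot hT (hT.localization i j h ht) hZ hU
  opened i j h ht hZ hX := tb_opn hT (hT.localization i j h ht) hZ hX
  closed i j h ht hX hU := tb_clo hT (hT.localization i j h ht) hX hU
  space := tb_space hT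
  jouanolou A _ _ _ m f U j hj hr h := (tb_iso hT (hT.bundle A m f U j hj hr)).mpr h
  torus A _ _ _ h := tb_ret hT (hT.torus A) h

/-- In a field with a prime number of elements each element is an integer. -/
lemma int_surj {k : Type} [Field k] (hk : (Nat.card k).Prime) :
    Function.Surjective (Int.cast : ℤ → k) := by
  have hf : Finite k := Nat.finite_of_card_ne_zero hk.ne_zero
  have h1 : (Int.castAddHom k).range = ⊤ := by
    rcases hk.eq_one_or_self_of_dvd _ (AddSubgroup.card_addSubgroup_dvd_card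
      (Int.castAddHom k).range) with h | h
    · exfalso
      have h2 : (Int.castAddHom k).range = ⊥ := AddSubgroup.eq_bot_of_card_eq _ h
      have h3 : (1 : k) ∈ (Int.castAddHom k).range := ⟨1, Int.cast_one⟩
      rw [h2] at h3
      exact one_ne_zero h3
    · exact AddSubgroup.eq_top_of_card_eq _ h
  intro x
  have h2 : x ∈ (Int.castAddHom k).range := by
    rw [h1]
    trivial
  exact h2

/-- Reduction to the hypersurfaces `T(x, y, z) = 1`. -/
theorem tb_all (hT : IsHomology T)
    (h : ∀ (a b c : ℕ) (t : Fin a → Fin b → Fin c → k), TB T (hypS t))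
    (X : Sch k) (hX : FT True X) : TB T X :=
  universal (uni_tb hT) (S := Set.univ) trivial trivial (fun a b c t _ => h a b c t)
    presents_univ X hX

/-- Reduction to the hypersurfaces of tripartite hypergraphs over a prime field. -/
theorem tb_all_prime (hT : IsHomology T) (hk : Function.Surjective (Int.cast : ℤ → k))
    (h : ∀ (a b c : ℕ) (H : Finset (Fin a × Fin b × Fin c)), TB T (tripS k H))
    (X : Sch k) (hX : FT True X) : TB T X :=
  universal_int hk (uni_tb hT) h X hX

end Pool.Agent.Y116.UV
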