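import Pool.Agent.Y116.UV.Geo

/-!
# The hypersurfaces `T(x, y, z) = 1` decide every property closed under closed-open decompositions
-/

set_option autoImplicit false

open CategoryTheory AlgebraicGeometry TopologicalSpace MvPolynomial

namespace Pool.Agent.Y116.UV

variable {R : Type} [CommRing R] {sep : Prop} {P : Sch R → Prop}

lemma isOpen_ne {A : Type} [CommRing A] {m : ℕ} (f : Fin m → A) :
    IsOpen {x : PrimeSpectrum A | ∃ l, f l ∉ x.asIdeal} := by
  have h : {x : PrimeSpectrum A | ∃ l, f l ∉ x.asIdeal} =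
      ⋃ l, (PrimeSpectrum.basicOpen (f l) : Set (PrimeSpectrum A)) := by
    ext x
    simp only [Set.mem_ofPred_eq, Set.mem_iUnion]
    rfl
  rw [h]
  exact isOpen_iUnion fun l => (PrimeSpectrum.basicOpen (f l)).2

/-- the complement of `f = 0` -/
def neOpen (R : Type) [CommRing R] {A : Type} [CommRing A] [Algebra R A] {m : ℕ} (f : Fin m → A) :
    (aff R A).left.Opens :=
  ⟨{x : PrimeSpectrum A | ∃ l, f l ∉ x.asIdeal}, isOpen_ne f⟩

lemma iso_alg (hP : Uni sep P) {A B : Type} [CommRing A] [CommRing B] [Algebra R A] [Algebra R B]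
    [Algebra.FiniteType R A] (e : A ≃ₐ[R] B) (h : P (aff R A)) : P (aff R B) :=
  hP.iso (ft_aff sep) ⟨(affIso e).symm⟩ h

lemma of_jou (hP : Uni sep P) {A : Type} [CommRing A] [Algebra R A] [Algebra.FiniteType R A]
    {m : ℕ} (f : Fin m → A) (hA : P (aff R A)) (hJ : P (aff R (Jou f))) :
    P (aff R (A ⧸ Ideal.span (Set.range f))) := by
  refine hP.closed (affMap (Ideal.Quotient.mkₐ R (Ideal.span (Set.range f))))
    (opnMap (aff R A) (neOpen R f)) (ft_aff sep) ⟨closed_affMap _ (Ideal.Quotient.mkₐ_surjective R _),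
      inferInstance, ?_⟩ hA
    (hP.jouanolou A m f (opn (aff R A) (neOpen R f)) (opnMap (aff R A) (neOpen R f)) inferInstance
      (range_opnMap _ _) hJ)
  rw [range_affMap _ (Ideal.Quotient.mkₐ_surjective R _), range_opnMap]
  ext x
  change (∀ a, Ideal.Quotient.mk (Ideal.span (Set.range f)) a = 0 → a ∈ x.asIdeal) ↔
    ¬ ∃ l, f l ∉ x.asIdeal
  push Not
  constructor
  · intro h l
    exact h (f l) (Ideal.Quotient.eq_zero_iff_mem.mpr (Ideal.subset_span ⟨l, rfl⟩))
  · intro h a ha
    rw [Ideal.Quotient.eq_zero_iff_mem] at ha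
    refine (Ideal.span_le.mpr ?_ : Ideal.span (Set.range f) ≤ x.asIdeal) ha
    rintro _ ⟨l, rfl⟩
    exact h l

lemma ft_laurent (A : Type) [CommRing A] [Algebra R A] [Algebra.FiniteType R A] :
    Algebra.FiniteType R (LaurentPolynomial A) := by
  have h : Algebra.FiniteType A (LaurentPolynomial A) :=
    AddMonoidAlgebra.finiteType_of_fg A ℤ
  exact Algebra.FiniteType.trans (S := A) inferInstance h

/-- Every algebra of finite type has a presentation by polynomials with coefficients in `S`. -/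
def Presents (S : Set R) : Prop :=
  ∀ (A : Type) [CommRing A] [Algebra R A] [Algebra.FiniteType R A],
    ∃ (n : ℕ) (φ : MvPolynomial (Fin n) R →ₐ[R] A) (G : Finset (MvPolynomial (Fin n) R)),
      Function.Surjective φ ∧ RingHom.ker φ = Ideal.span (G : Set (MvPolynomial (Fin n) R)) ∧
      ∀ g ∈ G, ∀ m, coeff m g ∈ S

section

variable {S : Set R} (hP : Uni sep P) (h0 : 0 ∈ S) (h1 : 1 ∈ S)
  (hH : ∀ (a b c : ℕ) (T : Fin a → Fin b → Fin c → R), (∀ i j k, T i j k ∈ S) →
    P (aff R (Hyp T)))

include hP hH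

lemma hyp_fintype {α β γ : Type} [Fintype α] [Fintype β] [Fintype γ] (T : α → β → γ → R)
    (hT : ∀ i j k, T i j k ∈ S) : P (aff R (Hyp T)) :=
  iso_alg hP (hypRename (Fintype.equivFin α).symm (Fintype.equivFin β).symm
    (Fintype.equivFin γ).symm T) (hH _ _ _ _ fun _ _ _ => hT _ _ _)

lemma of_bil {β γ κ : Type} [Fintype β] [Fintype γ] [Fintype κ] (f : κ → MvPolynomial (β ⊕ γ) R)
    (hf : ∀ k, f k ∈ bilIn S β γ) :
    P (aff R (MvPolynomial (β ⊕ γ) R ⧸ Ideal.span (Set.range f))) := by
  let e := (Fintype.equivFin κ).symm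
  have h1 : Set.range f = Set.range (f ∘ e) := by
    rw [Set.range_comp, e.range_eq_univ, Set.image_univ]
  rw [h1]
  choose T hTS hT using hf
  refine of_jou hP (f ∘ e) ?_ ?_
  · exact iso_alg hP (renameEquiv R (Fintype.equivFin (β ⊕ γ)).symm) (hP.space _)
  · have h2 : f ∘ e = fun i => bil β γ (T (e i)) := by
      funext i
      exact (hT (e i)).symm
    rw [h2]
    exact iso_alg hP (hypEquiv fun i => T (e i)) (hyp_fintype hP hH _ fun _ _ _ => hTS _ _ _)

include h0 h1

lemma of_cone {A : Type} [CommRing A] [Algebra R A] [Algebra.FiniteType R A] {n D : ℕ} (hD : 1 ≤ D)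
    (G : Finset (MvPolynomial (Fin n) R)) (φ : MvPolynomial (Fin n) R →ₐ[R] A)
    (hd : ∀ g ∈ G, ∀ m ∈ g.support, m.degree ≤ D) (hs : Function.Surjective φ)
    (hK : RingHom.ker φ = Ideal.span (G : Set (MvPolynomial (Fin n) R)))
    (hc : ∀ g ∈ G, ∀ m, coeff m g ∈ S) : P (aff R A) := by
  classical
  have hG : ∀ g ∈ G, φ g = 0 := by
    intro g hg
    have : g ∈ RingHom.ker φ := by
      rw [hK]
      exact Ideal.subset_span hg
    exact this
  have hA : P (aff R (Cone hD G)) := of_bil hP hH (eqs hD G) (eqs_mem hD G h0 h1 hc)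
  let f' : Option (Mon n D ⊕ (Mon n D × Fin n) ⊕ G) → UVRing R n D := fun k =>
    k.elim (uu R (mo n D) * vv R (mo n D)) (eqs hD G)
  have h2 : P (aff R (UVRing R n D ⧸ Ideal.span (Set.range f'))) := by
    apply of_bil hP hH f'
    rintro (_ | k)
    · exact single_mem h0 h1 _ _
    · exact eqs_mem hD G h0 h1 hc k
  have h3 : Ideal.span (Set.range f') =
      eqI hD G ⊔ Ideal.span {uu R (mo n D) * vv R (mo n D)} := by
    rw [eqI, ← Ideal.span_union]
    congr 1
    ext x
    constructor
    · rintro ⟨_ | k, rfl⟩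
      · exact Or.inr rfl
      · exact Or.inl ⟨k, rfl⟩
    · rintro (⟨k, rfl⟩ | rfl)
      · exact ⟨some k, rfl⟩
      · exact ⟨none, rfl⟩
  rw [h3] at h2
  have h4 : P (aff R (Cone hD G ⧸ Ideal.span {cw hD G})) := by
    have e := (DoubleQuot.quotQuotEquivQuotSupₐ R (eqI hD G)
      (Ideal.span {uu R (mo n D) * vv R (mo n D)})).symm
    have h5 := iso_alg (B := Cone hD G ⧸ Ideal.map (Ideal.Quotient.mkₐ R (eqI hD G))
      (Ideal.span {uu R (mo n D) * vv R (mo n D)})) hP e h2
    have h6 : Ideal.map (Ideal.Quotient.mkₐ R (eqI hD G))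
        (Ideal.span {uu R (mo n D) * vv R (mo n D)}) = Ideal.span {cw hD G} := by
      rw [Ideal.map_span, Set.image_singleton]
      rfl
    rw [← h6]
    exact h5
  have h5 : P (aff R (LCone hD G)) := hP.opened _ _ (ft_aff sep) (triple_away (cw hD G)) h4 hA
  have h6 : Algebra.FiniteType R (LCone hD G) :=
    Algebra.FiniteType.trans (S := Cone hD G) inferInstance inferInstance
  have h7 := ft_laurent (R := R) A
  exact hP.torus A (hP.torus _ (iso_alg hP (coneEquiv hD G φ hG hd hs hK) h5))

/-- The affine case. -/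
theorem affine_case (hS : Presents S) (A : Type) [CommRing A] [Algebra R A]
    [Algebra.FiniteType R A] : P (aff R A) := by
  classical
  obtain ⟨n, φ, G, hs, hK, hc⟩ := hS A
  let D : ℕ := 1 + ∑ g ∈ G, ∑ m ∈ g.support, m.degree
  refine of_cone hP h0 h1 hH (D := D) (by omega) G φ ?_ hs hK hc
  intro g hg m hm
  have h1 : m.degree ≤ ∑ m ∈ g.support, m.degree :=
    Finset.single_le_sum (f := fun m : Fin n →₀ ℕ => m.degree) (fun _ _ => Nat.zero_le _) hm
  have h2 : ∑ m ∈ g.support, m.degree ≤ ∑ g ∈ G, ∑ m ∈ g.support, m.degree :=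
    Finset.single_le_sum (f := fun g : MvPolynomial (Fin n) R => ∑ m ∈ g.support, m.degree)
      (fun _ _ => Nat.zero_le _) hg
  omega

/-- If the property `P` is closed under closed-open decompositions, under the affine bundles of
Jouanolou and under passing from `X × 𝔾_m` to `X`, and if it is true for the affine spaces and for the
hypersurfaces `T(x, y, z) = 1` for trilinear forms `T` with coefficients in `S`, then it is true for
every (separated) scheme of finite type over the ring `R`. -/
theorem universal (hS : Presents S) (X : Sch R) (hX : FT sep X) : P X :=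
  of_affine hP (fun A _ _ _ => affine_case hP h0 h1 hH hS A) X hX

end

/-- Over a noetherian ring all algebras of finite type are finitely presented. -/
lemma presents_univ [IsNoetherianRing R] : Presents (Set.univ : Set R) := by
  intro A _ _ h
  obtain ⟨n, φ, hs⟩ := Algebra.FiniteType.iff_quotient_mvPolynomial''.mp h
  obtain ⟨G, hG⟩ := (isNoetherianRing_iff_ideal_fg _).mp
    (inferInstance : IsNoetherianRing (MvPolynomial (Fin n) R)) (RingHom.ker φ)
  exact ⟨n, φ, G, hs, hG.symm, fun _ _ _ => trivial⟩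

end Pool.Agent.Y116.UV
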