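import Pool.Agent.Y116.UV.Defs

/-!
# Motivic and `ℓ`-adic homology of the schemes over a field, and the conjecture of Tate and Beilinson
-/

set_option autoImplicit false

open CategoryTheory AlgebraicGeometry

namespace Pool.Agent.Y116.UV

/-- Data of motivic and `ℓ`-adic homology of the schemes over the field `k`: the motivic homology
`M X i j = H_i^M(X, ℚ(j))` (rational higher Chow groups), the `ℓ`-adic homology
`E X i j = H_i(X, ℚ_ℓ(j))` over the algebraic closure (`Ω` is the field `ℚ_ℓ`), the operation `frob` of
the Frobenius, and the regulator `reg`. -/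
structure Homology (k Ω : Type) [Field k] [Field Ω] where
  M : Sch k → ℤ → ℤ → Type
  [mgrp : ∀ X i j, AddCommGroup (M X i j)]
  [mmod : ∀ X i j, Module ℚ (M X i j)]
  E : Sch k → ℤ → ℤ → Type
  [egrp : ∀ X i j, AddCommGroup (E X i j)]
  [emod : ∀ X i j, Module Ω (E X i j)]
  frob : ∀ X i j, E X i j →ₗ[Ω] E X i j
  reg : ∀ X i j, M X i j →+ E X i j

attribute [instance] Homology.mgrp Homology.mmod Homology.egrp Homology.emod

variable {k Ω : Type} [Field k] [Field Ω]

/-- Jannsen's generalised conjecture of Tate and Beilinson for `X`: in all degrees and for all twists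
the regulator is, after extension of scalars, an isomorphism of the motivic homology with the space of
the Frobenius invariant elements (these are the linear combinations of the images, and linearly
independent elements have linearly independent images), and the eigenvalue one of the Frobenius is
semisimple. -/
def TB (T : Homology k Ω) (X : Sch k) : Prop :=
  ∀ i j : ℤ,
    (∀ e, T.frob X i j e = e ↔ e ∈ Submodule.span Ω (Set.range (T.reg X i j))) ∧
    (∀ (r : ℕ) (x : Fin r → T.M X i j), LinearIndependent ℚ x →
      LinearIndependent Ω fun k => T.reg X i j (x k)) ∧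
    ∀ e, T.frob X i j (T.frob X i j e - e) = T.frob X i j e - e → T.frob X i j e = e

/-- A homomorphism of motivic and `ℓ`-adic homology groups which is compatible with the regulators and
the Frobenius. -/
structure HHom (T : Homology k Ω) (X : Sch k) (i j : ℤ) (Y : Sch k) (i' j' : ℤ) where
  f : T.M X i j →+ T.M Y i' j'
  g : T.E X i j →ₗ[Ω] T.E Y i' j'
  reg : ∀ x, T.reg Y i' j' (f x) = g (T.reg X i j x)
  frob : ∀ x, T.frob Y i' j' (g x) = g (T.frob X i j x)

/-- Exactness for both homology theories. -/
def IsExactAt {T : Homology k Ω} {X Y W : Sch k} {i j i' j' i'' j'' : ℤ}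
    (a : HHom T X i j Y i' j') (b : HHom T Y i' j' W i'' j'') : Prop :=
  Function.Exact a.f b.f ∧ Function.Exact a.g b.g

/-- The long exact localisation sequences for a closed subscheme `Z` of `X` and its complement `U`. -/
def HasSequence (T : Homology k Ω) (Z X U : Sch k) : Prop :=
  ∀ j : ℤ, ∃ (a : ∀ i, HHom T Z i j X i j) (b : ∀ i, HHom T X i j U i j)
    (d : ∀ i, HHom T U (i + 1) j Z i j),
    ∀ i, IsExactAt (a i) (b i) ∧ IsExactAt (b (i + 1)) (d i) ∧ IsExactAt (d i) (a i)

/-- The homology groups of `X` are isomorphic to those of `Y` in the degrees `i + 2 r` with the twists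
`j + r`. -/
def HasIso (T : Homology k Ω) (X Y : Sch k) (r : ℤ) : Prop :=
  ∀ i j : ℤ, ∃ s : HHom T X i j Y (i + 2 * r) (j + r), Function.Bijective s.f ∧
    Function.Bijective s.g

/-- The homology groups of `X` are direct summands of those of `Y` in the degrees `i + 2 r` with the
twists `j + r`. -/
def HasRetraction (T : Homology k Ω) (X Y : Sch k) (r : ℤ) : Prop :=
  ∀ i j : ℤ, ∃ (s : HHom T X i j Y (i + 2 * r) (j + r)) (t : HHom T Y (i + 2 * r) (j + r) X i j),
    (∀ x, t.f (s.f x) = x) ∧ ∀ x, t.g (s.g x) = x

/-- Properties of motivic and `ℓ`-adic homology of separated schemes of finite type over a finite field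
`k`: the `ℓ`-adic groups are finite-dimensional, the image of the regulator consists of invariant
elements, isomorphic schemes have isomorphic groups, the localisation sequences are exact
(`localization`), the groups are invariant under the affine bundle
`Spec A[w] / (∑ f_l w_l - 1) → U`, where `U` is the complement of the closed subscheme `f = 0` of
`Spec A` (`bundle`), the groups of `X` are direct summands of the ones of `X × 𝔾_m`, by pull-back and
specialisation to the unit section (`torus`), and the conjecture is true for `Spec k` (`point`, by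
Quillen's computation of the `K`-groups of finite fields). -/
structure IsHomology (T : Homology k Ω) : Prop where
  finite : ∀ X i j, FiniteDimensional Ω (T.E X i j)
  frob_reg : ∀ X i j x, T.frob X i j (T.reg X i j x) = T.reg X i j x
  iso : ∀ {X Y : Sch k}, FT True X → Nonempty (X ≅ Y) → HasIso T X Y 0
  localization : ∀ {Z X U : Sch k} (a : Z ⟶ X) (b : U ⟶ X), FT True X → IsTriple a b →
    HasSequence T Z X U
  bundle : ∀ (A : Type) [CommRing A] [Algebra k A] [Algebra.FiniteType k A] (m : ℕ)
    (f : Fin m → A) (U : Sch k) (b : U ⟶ aff k A), IsOpenImmersion b.left →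
    Set.range b.left = {x : PrimeSpectrum A | ∃ l, f l ∉ x.asIdeal} →
    HasIso T U (aff k (Jou f)) (m - 1)
  torus : ∀ (A : Type) [CommRing A] [Algebra k A] [Algebra.FiniteType k A],
    HasRetraction T (aff k A) (aff k (LaurentPolynomial A)) 1
  point : TB T (aff k k)

end Pool.Agent.Y116.UV
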