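import Mathlib

/-!
# Properties of schemes that are closed under closed-open decompositions: definitions

Schemes of finite type over `R`, complementary closed and open immersions, affine schemes over `R`,
and the affine cubic hypersurfaces `T(x, y, z) = 1` for trilinear forms `T`.
-/

set_option autoImplicit false

open CategoryTheory AlgebraicGeometry

namespace Pool.Agent.Y116.UV

/-- Schemes over the ring `R`. -/
abbrev Sch (R : Type) [CommRing R] : Type 1 := Over (Spec (CommRingCat.of R))

/-- The affine scheme `Spec A` over `R`. -/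
noncomputable def aff (R A : Type) [CommRing R] [CommRing A] [Algebra R A] : Sch R :=
  Over.mk (Spec.map (CommRingCat.ofHom (algebraMap R A)))

/-- `X` is of finite type over `R`, and separated if `sep` is true. -/
structure FT (sep : Prop) {R : Type} [CommRing R] (X : Sch R) : Prop where
  locallyOfFiniteType : LocallyOfFiniteType X.hom
  quasiCompact : QuasiCompact X.hom
  separated : sep → IsSeparated X.hom

/-- `i` is a closed immersion and `j` is an open immersion onto the complement of its image. -/
structure IsTriple {R : Type} [CommRing R] {Z X U : Sch R} (i : Z ⟶ X) (j : U ⟶ X) : Prop where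
  closed : IsClosedImmersion i.left
  opened : IsOpenImmersion j.left
  compl : Set.range i.left = (Set.range j.left)ᶜ

open MvPolynomial in
/-- The trilinear form with the coefficients `T`, as a polynomial in the variables `x i`, `y j`,
`z k`. -/
noncomputable def tri {R : Type} [CommRing R] {α β γ : Type} [Fintype α] [Fintype β] [Fintype γ]
    (T : α → β → γ → R) : MvPolynomial (α ⊕ (β ⊕ γ)) R :=
  ∑ i, ∑ j, ∑ k, C (T i j k) * X (Sum.inl i) * X (Sum.inr (Sum.inl j)) * X (Sum.inr (Sum.inr k))

/-- The ring `R[x, y, z] / (T(x, y, z) - 1)` of functions on the hypersurface `T(x, y, z) = 1`. -/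
abbrev Hyp {R : Type} [CommRing R] {α β γ : Type} [Fintype α] [Fintype β] [Fintype γ]
    (T : α → β → γ → R) : Type :=
  MvPolynomial (α ⊕ (β ⊕ γ)) R ⧸ Ideal.span {tri T - 1}

open MvPolynomial in
/-- The ring `A[w] / (∑ f_l w_l - 1)`; its spectrum is an affine bundle over the complement of the
closed subscheme `f = 0` of `Spec A` (Jouanolou's device). -/
abbrev Jou {A : Type} [CommRing A] {m : ℕ} (f : Fin m → A) : Type :=
  MvPolynomial (Fin m) A ⧸ Ideal.span {∑ l, C (f l) * X l - 1}

open MvPolynomial in
/-- The ring of functions `R[x, y, z] / (∑_{(i, j, k) ∈ H} x_i y_j z_k - 1)` of the hypersurface of the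
set `H` of triples (a tripartite hypergraph). -/
abbrev Trip (R : Type) [CommRing R] {a b c : ℕ} (H : Finset (Fin a × Fin b × Fin c)) : Type :=
  MvPolynomial (Fin a ⊕ (Fin b ⊕ Fin c)) R ⧸ Ideal.span
    {∑ h ∈ H, X (Sum.inl h.1) * X (Sum.inr (Sum.inl h.2.1)) * X (Sum.inr (Sum.inr h.2.2)) -
      (1 : MvPolynomial (Fin a ⊕ (Fin b ⊕ Fin c)) R)}

/-- The cubic hypersurface `T(x, y, z) = 1` over `R`. -/
noncomputable def hypS {R : Type} [CommRing R] {a b c : ℕ} (T : Fin a → Fin b → Fin c → R) : Sch R :=
  aff R (Hyp T)

/-- The cubic hypersurface `∑_{(i, j, k) ∈ H} x_i y_j z_k = 1` over `R`. -/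
noncomputable def tripS (R : Type) [CommRing R] {a b c : ℕ} (H : Finset (Fin a × Fin b × Fin c)) :
    Sch R :=
  aff R (Trip R H)

end Pool.Agent.Y116.UV
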