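import Pool.Agent.Y116.UV.Defs

/-!
# The `K`-groups of coherent sheaves: the properties that are used
-/

set_option autoImplicit false

open CategoryTheory AlgebraicGeometry

namespace Pool.Agent.Y116.UV

/-- The scheme `Spec A[w] / (∑ f_l w_l - 1)` over `R`; it is an affine bundle over the complement of the
closed subscheme `f = 0` of `Spec A`. -/
noncomputable def jouS (R : Type) [CommRing R] {A : Type} [CommRing A] [Algebra R A] {m : ℕ}
    (f : Fin m → A) : Sch R := aff R (Jou f)

/-- The scheme `Spec A × 𝔾_m = Spec A[t, 1/t]` over `R`. -/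
noncomputable def torS (R A : Type) [CommRing R] [CommRing A] [Algebra R A] : Sch R :=
  aff R (LaurentPolynomial A)

/-- `j` is an open immersion onto the complement of the closed subscheme `f = 0` of `Spec A`. -/
structure IsCompl {R : Type} [CommRing R] {A : Type} [CommRing A] [Algebra R A] {m : ℕ}
    (f : Fin m → A) {U : Sch R} (j : U ⟶ aff R A) : Prop where
  opened : IsOpenImmersion j.left
  range : Set.range j.left = {x : PrimeSpectrum A | ∃ l, f l ∉ x.asIdeal}

/-- Data of `K`-groups of coherent sheaves: `K X n` is the group `K'_n(X)` of the scheme `X`. -/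
structure KTheory (R : Type) [CommRing R] where
  K : Sch R → ℕ → Type
  [grp : ∀ X n, AddCommGroup (K X n)]

attribute [instance] KTheory.grp

variable {R : Type} [CommRing R]

/-- Homomorphisms of `K`-groups. -/
structure KHom (G : KTheory R) (X : Sch R) (m : ℕ) (Y : Sch R) (n : ℕ) where
  f : G.K X m → G.K Y n
  add : ∀ x y, f (x + y) = f x + f y

/-- Exactness. -/
def KExact {G : KTheory R} {X Y W : Sch R} {l m n : ℕ} (a : KHom G X l Y m)
    (b : KHom G Y m W n) : Prop :=
  ∀ y, b.f y = 0 ↔ ∃ x, a.f x = y

/-- The long exact localisation sequence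
`⋯ → K'_1(Z) → K'_1(X) → K'_1(U) → K'_0(Z) → K'_0(X) → K'_0(U) → 0`. -/
def HasKSequence (G : KTheory R) (Z X U : Sch R) : Prop :=
  ∃ (a : ∀ n, KHom G Z n X n) (b : ∀ n, KHom G X n U n) (d : ∀ n, KHom G U (n + 1) Z n),
    (∀ n, KExact (a n) (b n) ∧ KExact (b (n + 1)) (d n) ∧ KExact (d n) (a n)) ∧
    Function.Surjective (b 0).f

/-- The groups of `X` and `Y` are isomorphic. -/
def HasKIso (G : KTheory R) (X Y : Sch R) : Prop :=
  ∀ n, ∃ s : KHom G X n Y n, Function.Bijective s.f

/-- The groups of `X` are direct summands of the groups of `Y`. -/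
def HasKRetraction (G : KTheory R) (X Y : Sch R) : Prop :=
  ∀ n, ∃ (s : KHom G X n Y n) (t : KHom G Y n X n), ∀ x, t.f (s.f x) = x

/-- All the groups `K'_n(X)` are finitely generated. -/
def KFG (G : KTheory R) (X : Sch R) : Prop := ∀ n, AddGroup.FG (G.K X n)

/-- The scheme `X` is regular. -/
def IsReg (X : Sch R) : Prop := ∀ x : X.left, IsRegularLocalRing (X.left.presheaf.stalk x)

/-- Properties of the groups `K'_n(X)` of the schemes `X` of finite type over `R` (Quillen):
isomorphic schemes have isomorphic groups, the localisation sequences are exact (`localization`), the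
groups are invariant under the affine bundle `Spec A[w] / (∑ f_l w_l - 1) → U`, where `U` is the
complement of the closed subscheme `f = 0` of `Spec A` (`bundle`), the groups of `X` are direct
summands of the ones of `X × 𝔾_m` (`torus`), and the `K`-groups of `R` are finitely generated
(`base`; for `R = ℤ` this is a theorem of Quillen). -/
structure IsKTheory (G : KTheory R) : Prop where
  iso : ∀ {X Y : Sch R}, Nonempty (X ≅ Y) → HasKIso G X Y
  localization : ∀ {Z X U : Sch R} (i : Z ⟶ X) (j : U ⟶ X), FT False X → IsTriple i j →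
    HasKSequence G Z X U
  bundle : ∀ (A : Type) [CommRing A] [Algebra R A] [Algebra.FiniteType R A] (m : ℕ)
    (f : Fin m → A) (U : Sch R) (j : U ⟶ aff R A), IsCompl f j → HasKIso G U (jouS R f)
  torus : ∀ (A : Type) [CommRing A] [Algebra R A] [Algebra.FiniteType R A],
    HasKRetraction G (aff R A) (torS R A)
  base : KFG G (aff R R)

end Pool.Agent.Y116.UV
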