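import Pool.Agent.Y116.UV.Regular
import Pool.Agent.Y116.UV.Graph
import Pool.Agent.Y116.UV.Space

/-!
# Finite generation of `K`-groups is closed under closed-open decompositions
-/

set_option autoImplicit false

open CategoryTheory AlgebraicGeometry MvPolynomial

namespace Pool.Agent.Y116.UV

section

variable {A B C : Type} [AddCommGroup A] [AddCommGroup B] [AddCommGroup C]

lemma fg_iff (A : Type) [AddCommGroup A] : AddGroup.FG A ↔ Module.Finite ℤ A :=
  Module.Finite.iff_addGroup_fg.symm

lemma fg_of_surj (f : A →+ B) (hf : Function.Surjective f) (h : AddGroup.FG A) :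
    AddGroup.FG B := by
  rw [fg_iff] at h ⊢
  exact Module.Finite.of_surjective f.toIntLinearMap hf

lemma fg_of_inj (f : A →+ B) (hf : Function.Injective f) (h : AddGroup.FG B) :
    AddGroup.FG A := by
  rw [fg_iff] at h ⊢
  exact Module.Finite.of_injective f.toIntLinearMap hf

lemma fg_of_exact (f : A →+ B) (g : B →+ C) (hfg : Function.Exact f g) (hA : AddGroup.FG A)
    (hC : AddGroup.FG C) : AddGroup.FG B := by
  rw [fg_iff] at hA hC ⊢
  have h1 : Module.Finite ℤ (LinearMap.range f.toIntLinearMap) := inferInstance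
  have h2 : Module.Finite ℤ (LinearMap.range g.toIntLinearMap) := inferInstance
  have h3 : (LinearMap.ker g.toIntLinearMap) = LinearMap.range f.toIntLinearMap := by
    ext x
    exact (hfg x)
  have h4 : Module.Finite ℤ (LinearMap.ker g.toIntLinearMap) := by
    rw [h3]
    exact h1
  have h5 : (⊤ : Submodule ℤ B).FG := by
    apply Submodule.fg_of_fg_map_of_fg_inf_ker g.toIntLinearMap
    · rw [← LinearMap.range_eq_map]
      exact (Module.Finite.iff_fg).mp h2
    · rw [top_inf_eq]
      exact (Module.Finite.iff_fg).mp h4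
  exact ⟨h5⟩

end

variable {R : Type} [CommRing R] {G : KTheory R}

/-- the bundled homomorphism -/
def KHom.hom {X Y : Sch R} {m n : ℕ} (a : KHom G X m Y n) : G.K X m →+ G.K Y n :=
  AddMonoidHom.mk' a.f a.add

lemma KExact.exact {X Y W : Sch R} {l m n : ℕ} {a : KHom G X l Y m} {b : KHom G Y m W n}
    (h : KExact a b) : Function.Exact a.hom b.hom := fun y => (h y)

lemma kfg_tot {Z X U : Sch R} (h : HasKSequence G Z X U) (hZ : KFG G Z) (hU : KFG G U) :
    KFG G X := by
  obtain ⟨a, b, d, h, -⟩ := h
  exact fun n => fg_of_exact (a n).hom (b n).hom (h n).1.exact (hZ n) (hU n)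

lemma kfg_clo {Z X U : Sch R} (h : HasKSequence G Z X U) (hX : KFG G X) (hU : KFG G U) :
    KFG G Z := by
  obtain ⟨a, b, d, h, -⟩ := h
  exact fun n => fg_of_exact (d n).hom (a n).hom (h n).2.2.exact (hU (n + 1)) (hX n)

lemma kfg_opn {Z X U : Sch R} (h : HasKSequence G Z X U) (hZ : KFG G Z) (hX : KFG G X) :
    KFG G U := by
  obtain ⟨a, b, d, h, h4⟩ := h
  intro n
  cases n with
  | zero => exact fg_of_surj (b 0).hom h4 (hX 0)
  | succ n => exact fg_of_exact (b (n + 1)).hom (d n).hom (h n).2.1.exact (hX (n + 1)) (hZ n)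

lemma kfg_iso {X Y : Sch R} (h : HasKIso G X Y) (hX : KFG G X) : KFG G Y := by
  intro n
  obtain ⟨s, hs⟩ := h n
  exact fg_of_surj s.hom hs.2 (hX n)

lemma kfg_iso' {X Y : Sch R} (h : HasKIso G X Y) (hY : KFG G Y) : KFG G X := by
  intro n
  obtain ⟨s, hs⟩ := h n
  exact fg_of_inj s.hom hs.1 (hY n)

lemma kfg_space (hG : IsKTheory G) (n : ℕ) : KFG G (aff R (MvPolynomial (Fin n) R)) := by
  have h := hG.bundle R (n + 1) (f1 R n) (aff R R) (𝟙 _) ⟨inferInstance, range_id n⟩
  exact kfg_iso (hG.iso ⟨(affIso (jouOne R n)).symm⟩) (kfg_iso h hG.base)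

/-- Finite generation is closed under closed-open decompositions, affine bundles and passing from
`X × 𝔾_m` to `X`. -/
theorem uni_k (hG : IsKTheory G) : Uni False (KFG G) where
  iso _ e hX := kfg_iso (hG.iso e) hX
  total i j h ht hZ hU := kfg_tot (hG.localization i j h ht) hZ hU
  opened i j h ht hZ hX := kfg_opn (hG.localization i j h ht) hZ hX
  closed i j h ht hX hU := kfg_clo (hG.localization i j h ht) hX hU
  space := kfg_space hG
  jouanolou A _ _ _ m f U j hj hr h := kfg_iso' (hG.bundle A m f U j ⟨hj, hr⟩) h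
  torus A _ _ _ h := by
    intro n
    obtain ⟨s, t, hst⟩ := hG.torus A n
    exact fg_of_inj s.hom (Function.LeftInverse.injective hst) (h n)

/-- Reduction to the hypersurfaces `T(x, y, z) = 1`. -/
theorem kfg_all [IsNoetherianRing R] (hG : IsKTheory G)
    (h : ∀ (a b c : ℕ) (t : Fin a → Fin b → Fin c → R), KFG G (hypS t))
    (X : Sch R) (hX : FT False X) : KFG G X :=
  universal (uni_k hG) (S := Set.univ) trivial trivial (fun a b c t _ => h a b c t)
    presents_univ X hX

/-- Reduction to the hypersurfaces of tripartite hypergraphs. -/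
theorem kfg_all_int [IsNoetherianRing R] (hR : Function.Surjective (Int.cast : ℤ → R))
    (hG : IsKTheory G)
    (h : ∀ (a b c : ℕ) (H : Finset (Fin a × Fin b × Fin c)), KFG G (tripS R H))
    (X : Sch R) (hX : FT False X) : KFG G X :=
  universal_int hR (uni_k hG) h X hX

/-- The hypersurface of a tripartite hypergraph over a regular ring is regular. -/
theorem trip_regular [IsRegularRing R] {a b c : ℕ} (H : Finset (Fin a × Fin b × Fin c)) :
    IsRegularRing (Trip R H) := by
  have h := hyp_regular (R := R) fun i j k => if (i, j, k) ∈ H then (1 : R) else 0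
  unfold Trip
  rw [← tri_ind]
  exact h

lemma isReg_trip [IsRegularRing R] {a b c : ℕ} (H : Finset (Fin a × Fin b × Fin c)) :
    IsReg (tripS R H) := by
  have := trip_regular (R := R) H
  exact isReg_aff

end Pool.Agent.Y116.UV
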