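import Pool.Agent.Y116.UV.KDefs
import Pool.Agent.H379R3.Reg

/-!
# The hypersurfaces `T(x, y, z) = 1` over a regular ring are regular
-/

set_option autoImplicit false
set_option linter.unusedSectionVars false

open CategoryTheory AlgebraicGeometry MvPolynomial

namespace Pool.Agent.Y116.UV

section

variable {B : Type} [CommRing B] (f : B) (P' : Ideal (B ⧸ Ideal.span {f})) [P'.IsPrime]

/-- the homomorphism of local rings -/
noncomputable def locHom : Localization.AtPrime (P'.comap (Ideal.Quotient.mk (Ideal.span {f}))) →+*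
    Localization.AtPrime P' :=
  Localization.localRingHom _ P' (Ideal.Quotient.mk (Ideal.span {f})) rfl

lemma locHom_mk (b : B) (s : (P'.comap (Ideal.Quotient.mk (Ideal.span {f}))).primeCompl) :
    locHom f P' (IsLocalization.mk' _ b s) =
      IsLocalization.mk' (Localization.AtPrime P') (Ideal.Quotient.mk (Ideal.span {f}) b)
        (⟨Ideal.Quotient.mk (Ideal.span {f}) s.1, s.2⟩ : P'.primeCompl) :=
  Localization.localRingHom_mk' _ _ _ _ b s

lemma locHom_surjective : Function.Surjective (locHom f P') := by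
  intro x
  obtain ⟨b, s, rfl⟩ := IsLocalization.exists_mk'_eq P'.primeCompl x
  obtain ⟨b, rfl⟩ := Ideal.Quotient.mk_surjective b
  obtain ⟨s, hs⟩ := s
  obtain ⟨s, rfl⟩ := Ideal.Quotient.mk_surjective s
  exact ⟨IsLocalization.mk' _ b (⟨s, hs⟩ :
    (P'.comap (Ideal.Quotient.mk (Ideal.span {f}))).primeCompl), locHom_mk f P' b ⟨s, hs⟩⟩

lemma locHom_ker : RingHom.ker (locHom f P') = Ideal.span {algebraMap B _ f} := by
  apply le_antisymm
  · intro x hx
    obtain ⟨b, s, rfl⟩ := IsLocalization.exists_mk'_eq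
      (P'.comap (Ideal.Quotient.mk (Ideal.span {f}))).primeCompl x
    rw [RingHom.mem_ker, locHom_mk, IsLocalization.mk'_eq_zero_iff] at hx
    obtain ⟨⟨t, ht⟩, h⟩ := hx
    obtain ⟨t, rfl⟩ := Ideal.Quotient.mk_surjective t
    change Ideal.Quotient.mk _ t * Ideal.Quotient.mk _ b = 0 at h
    rw [← map_mul, Ideal.Quotient.eq_zero_iff_mem, Ideal.mem_span_singleton] at h
    obtain ⟨c, hc⟩ := h
    have ht' : t ∈ (P'.comap (Ideal.Quotient.mk (Ideal.span {f}))).primeCompl := ht
    rw [Ideal.mem_span_singleton]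
    refine ⟨IsLocalization.mk' _ c (s * ⟨t, ht'⟩), ?_⟩
    rw [mul_comm, ← IsLocalization.mk'_one (M :=
      (P'.comap (Ideal.Quotient.mk (Ideal.span {f}))).primeCompl) _ f, ← IsLocalization.mk'_mul,
      mul_one, mul_comm c f, ← hc, mul_comm t b, IsLocalization.mk'_mul, IsLocalization.mk'_self,
      mul_one]
  · rw [Ideal.span_singleton_le_iff_mem, RingHom.mem_ker]
    have h := locHom_mk f P' f 1
    rw [IsLocalization.mk'_one] at h
    rw [h, Ideal.Quotient.eq_zero_iff_mem.mpr (Ideal.mem_span_singleton_self f),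
      IsLocalization.mk'_zero]

/-- A hypersurface in a regular scheme whose equation has order one is regular. -/
theorem regular_quot [IsRegularRing B]
    (hf : ∀ (P : Ideal B), P.IsPrime → f ∈ P → ∀ s, s ∉ P → s * f ∉ P ^ 2) :
    IsRegularRing (B ⧸ Ideal.span {f}) := by
  rw [isRegularRing_iff]
  intro P' hP'
  let P : Ideal B := P'.comap (Ideal.Quotient.mk (Ideal.span {f}))
  have hP : P.IsPrime := Ideal.comap_isPrime _ _
  have hfP : f ∈ P := by
    change Ideal.Quotient.mk _ f ∈ P'
    rw [Ideal.Quotient.eq_zero_iff_mem.mpr (Ideal.mem_span_singleton_self f)]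
    exact P'.zero_mem
  let L := Localization.AtPrime P
  have hL : IsRegularLocalRing L := inferInstance
  have h1 : algebraMap B L f ∈ IsLocalRing.maximalIdeal L := by
    rw [← Localization.AtPrime.map_eq_maximalIdeal]
    exact Ideal.mem_map_of_mem _ hfP
  have h2 : algebraMap B L f ∉ IsLocalRing.maximalIdeal L ^ 2 := by
    rw [← Localization.AtPrime.map_eq_maximalIdeal, ← Ideal.map_pow]
    intro h
    rw [IsLocalization.algebraMap_mem_map_algebraMap_iff P.primeCompl] at h
    obtain ⟨s, hs, h⟩ := h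
    exact hf P hP hfP s hs h
  obtain ⟨d, z, i₀, hd, -, -⟩ := H379R3.exists_param_of_mem (algebraMap B L f) h1 h2
  have hd' : 0 < d := lt_of_le_of_lt (Nat.zero_le _) i₀.2
  obtain ⟨d, rfl⟩ : ∃ e, d = e + 1 := ⟨d - 1, by omega⟩
  have h3 := (H379R3.regular_quotient (algebraMap B L f) h1 h2 d hd).1
  rw [← locHom_ker f P'] at h3
  exact IsRegularLocalRing.of_ringEquiv
    (RingHom.quotientKerEquivOfSurjective (locHom_surjective f P'))

end

section

variable {R : Type} [CommRing R] {α β γ : Type} [Fintype α] [Fintype β] [Fintype γ]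
  (T : α → β → γ → R)

/-- the derivation `∑ x_i ∂/∂x_i` -/
noncomputable def eul (R : Type) [CommRing R] (α β γ : Type) :
    Derivation R (MvPolynomial (α ⊕ (β ⊕ γ)) R) (MvPolynomial (α ⊕ (β ⊕ γ)) R) :=
  mkDerivation R (Sum.elim (fun i => X (Sum.inl i)) fun _ => 0)

lemma eul_tri : eul R α β γ (tri T) = tri T := by
  rw [tri, map_sum]
  apply Finset.sum_congr rfl
  intro i _
  rw [map_sum]
  apply Finset.sum_congr rfl
  intro j _
  rw [map_sum]
  apply Finset.sum_congr rfl
  intro k _
  have h1 : eul R α β γ (X (Sum.inl i)) = X (Sum.inl i) := by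
    rw [eul, mkDerivation_X, Sum.elim_inl]
  have h2 : ∀ s, eul R α β γ (X (Sum.inr s)) = 0 := by
    intro s
    rw [eul, mkDerivation_X, Sum.elim_inr]
  have h3 : eul R α β γ (C (T i j k)) = 0 := by
    rw [← algebraMap_eq]
    exact Derivation.map_algebraMap _ _
  rw [Derivation.leibniz, Derivation.leibniz, Derivation.leibniz, h1, h2, h2, h3]
  simp only [smul_eq_mul]
  ring

lemma der_sq (D : Derivation R (MvPolynomial (α ⊕ (β ⊕ γ)) R) (MvPolynomial (α ⊕ (β ⊕ γ)) R))
    (P : Ideal (MvPolynomial (α ⊕ (β ⊕ γ)) R)) (p : MvPolynomial (α ⊕ (β ⊕ γ)) R)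
    (hp : p ∈ P ^ 2) : D p ∈ P := by
  rw [pow_two] at hp
  induction hp using Submodule.mul_induction_on' with
  | mem_mul_mem a ha b hb =>
    rw [Derivation.leibniz]
    exact P.add_mem (P.mul_mem_right _ ha) (P.mul_mem_right _ hb)
  | add a _ b _ ha hb =>
    rw [map_add]
    exact P.add_mem ha hb

/-- The hypersurface `T(x, y, z) = 1` over a regular ring is regular. -/
theorem hyp_regular [IsRegularRing R] : IsRegularRing (Hyp T) := by
  apply regular_quot
  intro P hP hf s hs h
  have h1 := der_sq (eul R α β γ) P _ h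
  rw [Derivation.leibniz, smul_eq_mul, smul_eq_mul, map_sub, eul_tri, Derivation.map_one_eq_zero,
    sub_zero] at h1
  have h2 : s * tri T ∈ P := by
    have h3 := P.sub_mem h1 (P.mul_mem_right (eul R α β γ s) hf)
    rwa [add_sub_cancel_right] at h3
  have h4 : tri T ∈ P := (hP.mem_or_mem h2).resolve_left hs
  apply hP.ne_top
  rw [Ideal.eq_top_iff_one]
  have h5 := P.sub_mem h4 hf
  rwa [sub_sub_cancel] at h5

lemma isReg_aff {A : Type} [CommRing A] [Algebra R A] [IsRegularRing A] : IsReg (aff R A) := by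
  intro x
  let y : PrimeSpectrum A := x
  have h : IsRegularLocalRing (Localization.AtPrime y.asIdeal) := inferInstance
  exact IsRegularLocalRing.of_ringEquiv
    (Spec.stalkIso (.of A) y).commRingCatIsoToRingEquiv.symm

end

end Pool.Agent.Y116.UV
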