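import Pool.Agent.Y116.UV.Defs

/-!
# Properties of schemes that are closed under closed-open decompositions
-/

set_option autoImplicit false

open CategoryTheory AlgebraicGeometry

namespace Pool.Agent.Y116.UV

/-- The property `P` of schemes of finite type over `R` is closed under closed-open decompositions, it
is true for the affine spaces, it descends along the affine bundles of Jouanolou, and from
`X × 𝔾_m` to `X` for affine schemes `X`. -/
structure Uni {R : Type} [CommRing R] (sep : Prop) (P : Sch R → Prop) : Prop where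
  iso : ∀ {X Y : Sch R}, FT sep X → Nonempty (X ≅ Y) → P X → P Y
  total : ∀ {Z X U : Sch R} (i : Z ⟶ X) (j : U ⟶ X), FT sep X → IsTriple i j → P Z → P U → P X
  opened : ∀ {Z X U : Sch R} (i : Z ⟶ X) (j : U ⟶ X), FT sep X → IsTriple i j → P Z → P X → P U
  closed : ∀ {Z X U : Sch R} (i : Z ⟶ X) (j : U ⟶ X), FT sep X → IsTriple i j → P X → P U → P Z
  space : ∀ n : ℕ, P (aff R (MvPolynomial (Fin n) R))
  jouanolou : ∀ (A : Type) [CommRing A] [Algebra R A] [Algebra.FiniteType R A] (m : ℕ)
    (f : Fin m → A) (U : Sch R) (j : U ⟶ aff R A), IsOpenImmersion j.left →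
    Set.range j.left = {x : PrimeSpectrum A | ∃ l, f l ∉ x.asIdeal} → P (aff R (Jou f)) → P U
  torus : ∀ (A : Type) [CommRing A] [Algebra R A] [Algebra.FiniteType R A],
    P (aff R (LaurentPolynomial A)) → P (aff R A)

end Pool.Agent.Y116.UV
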