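import Mathlib

/-!
# Euler products of families of norms
-/

set_option autoImplicit false

open Complex

namespace Pool.Agent.Y116.UV

variable {S S' : Type}

/-- The Euler product `∏_x (1 - N(x)^(-s))⁻¹`. -/
noncomputable def eulerP (N : S → ℕ) (s : ℂ) : ℂ := ∏' x, (1 - (N x : ℂ) ^ (-s))⁻¹

/-- The norms are at least two, and there are at most `q ^ g` elements of norm `q`. -/
structure Adm (N : S → ℕ) (g : ℕ) : Prop where
  two : ∀ x, 2 ≤ N x
  fin : ∀ q, {x | N x = q}.Finite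
  bound : ∀ q, {x | N x = q}.ncard ≤ q ^ g

lemma Adm.summable {N : S → ℕ} {g : ℕ} (h : Adm N g) {σ : ℝ} (hσ : g + 1 < σ) :
    Summable fun x => (N x : ℝ) ^ (-σ) := by
  classical
  have hsum : Summable fun n : ℕ => (n : ℝ) ^ ((g : ℝ) - σ) := by
    rw [Real.summable_nat_rpow]
    linarith
  apply summable_of_sum_le (c := ∑' n : ℕ, (n : ℝ) ^ ((g : ℝ) - σ))
  · intro x
    positivity
  · intro u
    have h1 : ∑ x ∈ u, (N x : ℝ) ^ (-σ) =
        ∑ q ∈ u.image N, ∑ x ∈ u.filter (fun x => N x = q), (N x : ℝ) ^ (-σ) :=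
      (Finset.sum_fiberwise_of_maps_to (fun x hx => Finset.mem_image_of_mem N hx) _).symm
    rw [h1]
    have h2 : ∀ q ∈ u.image N, ∑ x ∈ u.filter (fun x => N x = q), (N x : ℝ) ^ (-σ) ≤
        (q : ℝ) ^ ((g : ℝ) - σ) := by
      intro q hq
      obtain ⟨x0, -, rfl⟩ := Finset.mem_image.mp hq
      have hpos : (0 : ℝ) < (N x0 : ℝ) := by
        have := h.two x0
        exact_mod_cast (by omega : 0 < N x0)
      have h3 : ∑ x ∈ u.filter (fun x => N x = N x0), (N x : ℝ) ^ (-σ) =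
          (u.filter (fun x => N x = N x0)).card • (N x0 : ℝ) ^ (-σ) := by
        rw [← Finset.sum_const]
        apply Finset.sum_congr rfl
        intro x hx
        rw [(Finset.mem_filter.mp hx).2]
      rw [h3, nsmul_eq_mul, sub_eq_add_neg, Real.rpow_add hpos, Real.rpow_natCast]
      apply mul_le_mul_of_nonneg_right _ (by positivity)
      have h4 : (u.filter (fun x => N x = N x0)).card ≤ {x | N x = N x0}.ncard := by
        rw [← Set.ncard_coe_finset]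
        apply Set.ncard_le_ncard _ (h.fin _)
        intro x hx
        exact (Finset.mem_filter.mp (Finset.mem_coe.mp hx)).2
      exact_mod_cast h4.trans (h.bound _)
    refine (Finset.sum_le_sum h2).trans ?_
    exact hsum.sum_le_tsum _ fun n _ => by positivity

/-- the terms of the logarithm -/
noncomputable def ltm (N : S → ℕ) (s : ℂ) (p : S × ℕ) : ℂ :=
  ((N p.1 : ℂ) ^ (-s)) ^ (p.2 + 1) / (p.2 + 1)

/-- the logarithm -/
noncomputable def lgE (N : S → ℕ) (s : ℂ) : ℂ := ∑' p, ltm N s p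

lemma norm_term {N : S → ℕ} {g : ℕ} (h : Adm N g) (s : ℂ) (x : S) :
    ‖(N x : ℂ) ^ (-s)‖ = (N x : ℝ) ^ (-s.re) := by
  have := h.two x
  rw [norm_natCast_cpow_of_pos (by omega), neg_re]

lemma term_le {N : S → ℕ} {g : ℕ} (h : Adm N g) {s : ℂ} (hs : 1 ≤ s.re) (x : S) :
    (N x : ℝ) ^ (-s.re) ≤ 1 / 2 := by
  have h2 : (2 : ℝ) ≤ N x := by exact_mod_cast h.two x
  calc (N x : ℝ) ^ (-s.re) ≤ (N x : ℝ) ^ (-1 : ℝ) :=
        Real.rpow_le_rpow_of_exponent_le (by linarith) (by linarith)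
    _ = (N x : ℝ)⁻¹ := Real.rpow_neg_one _
    _ ≤ 1 / 2 := by
        rw [one_div]
        exact inv_anti₀ (by norm_num) h2

lemma summable_lt {N : S → ℕ} {g : ℕ} (h : Adm N g) {s : ℂ} (hs : g + 1 < s.re) :
    Summable (ltm N s) := by
  have hs1 : 1 ≤ s.re := by
    have : (0 : ℝ) ≤ g := by positivity
    linarith
  have h1 : Summable fun p : S × ℕ => (N p.1 : ℝ) ^ (-s.re) * (1 / 2 : ℝ) ^ p.2 := by
    apply Summable.mul_of_nonneg (h.summable hs)
      (summable_geometric_of_lt_one (by norm_num) (by norm_num))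
    · intro x
      simp only [Pi.zero_apply]
      positivity
    · intro n
      simp only [Pi.zero_apply]
      positivity
  apply Summable.of_norm_bounded h1
  rintro ⟨x, k⟩
  have hr0 : (0 : ℝ) ≤ (N x : ℝ) ^ (-s.re) := by positivity
  have hr := term_le h hs1 x
  rw [ltm, norm_div, norm_pow, norm_term h]
  have h2 : (1 : ℝ) ≤ ‖((k : ℂ) + 1)‖ := by
    have : ((k : ℂ) + 1) = ((k + 1 : ℕ) : ℂ) := by push_cast; ring
    rw [this, Complex.norm_natCast]
    exact_mod_cast Nat.succ_le_succ (Nat.zero_le k)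
  calc ((N x : ℝ) ^ (-s.re)) ^ (k + 1) / ‖((k : ℂ) + 1)‖
      ≤ ((N x : ℝ) ^ (-s.re)) ^ (k + 1) := div_le_self (by positivity) h2
    _ = (N x : ℝ) ^ (-s.re) * ((N x : ℝ) ^ (-s.re)) ^ k := by rw [pow_succ, mul_comm]
    _ ≤ (N x : ℝ) ^ (-s.re) * (1 / 2 : ℝ) ^ k :=
        mul_le_mul_of_nonneg_left (pow_le_pow_left₀ hr0 hr k) hr0

lemma term_lt_one {N : S → ℕ} {g : ℕ} (h : Adm N g) {s : ℂ} (hs : g + 1 < s.re) (x : S) :
    ‖(N x : ℂ) ^ (-s)‖ < 1 := by
  have hs1 : 1 ≤ s.re := by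
    have : (0 : ℝ) ≤ g := by positivity
    linarith
  rw [norm_term h]
  linarith [term_le h hs1 x]

lemma hasSum_lt {N : S → ℕ} {g : ℕ} (h : Adm N g) {s : ℂ} (hs : g + 1 < s.re) (x : S) :
    HasSum (fun k => ltm N s (x, k)) (-log (1 - (N x : ℂ) ^ (-s))) := by
  have h1 := hasSum_taylorSeries_neg_log' (term_lt_one h hs x)
  have h2 : (fun k => ltm N s (x, k)) =
      fun n : ℕ => ((N x : ℂ) ^ (-s)) ^ (n + 1) / (n + 1) := by
    funext k
    rw [ltm]
  rw [h2]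
  exact h1

lemma log_inv_term {N : S → ℕ} {g : ℕ} (h : Adm N g) {s : ℂ} (hs : g + 1 < s.re) (x : S) :
    log (1 - (N x : ℂ) ^ (-s))⁻¹ = -log (1 - (N x : ℂ) ^ (-s)) := by
  apply log_inv
  intro h1
  have h2 := term_lt_one h hs x
  have h3 : 0 < (1 - (N x : ℂ) ^ (-s)).re := by
    rw [sub_re, one_re]
    have := (abs_re_le_norm ((N x : ℂ) ^ (-s)))
    have := le_abs_self ((N x : ℂ) ^ (-s)).re
    linarith
  rw [arg_eq_pi_iff] at h1
  linarith [h1.1]

lemma term_ne {N : S → ℕ} {g : ℕ} (h : Adm N g) {s : ℂ} (hs : g + 1 < s.re) (x : S) :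
    (1 - (N x : ℂ) ^ (-s))⁻¹ ≠ 0 := by
  apply inv_ne_zero
  intro h1
  have h2 := term_lt_one h hs x
  rw [← sub_eq_zero.mp h1, norm_one] at h2
  exact lt_irrefl _ h2

lemma summable_log {N : S → ℕ} {g : ℕ} (h : Adm N g) {s : ℂ} (hs : g + 1 < s.re) :
    Summable fun x => log (1 - (N x : ℂ) ^ (-s))⁻¹ := by
  have h1 := (summable_lt h hs).prod
  refine h1.congr fun x => ?_
  rw [(hasSum_lt h hs x).tsum_eq, log_inv_term h hs]

lemma eulerP_eq {N : S → ℕ} {g : ℕ} (h : Adm N g) {s : ℂ} (hs : g + 1 < s.re) :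
    eulerP N s = exp (lgE N s) := by
  rw [eulerP, ← cexp_tsum_eq_tprod (fun x => term_ne h hs x) (summable_log h hs), lgE,
    (summable_lt h hs).tsum_prod]
  congr 1
  apply tsum_congr
  intro x
  rw [(hasSum_lt h hs x).tsum_eq, log_inv_term h hs]

lemma eulerP_ne {N : S → ℕ} {g : ℕ} (h : Adm N g) {s : ℂ} (hs : g + 1 < s.re) :
    eulerP N s ≠ 0 := by
  rw [eulerP_eq h hs]
  exact exp_ne_zero _

lemma multipliable {N : S → ℕ} {g : ℕ} (h : Adm N g) {s : ℂ} (hs : g + 1 < s.re) :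
    Multipliable fun x => (1 - (N x : ℂ) ^ (-s))⁻¹ :=
  multipliable_of_summable_log (summable_log h hs)

/-- Multiplicativity. -/
lemma eulerP_sum {N : S → ℕ} {N' : S' → ℕ} {g g' : ℕ} (h : Adm N g) (h' : Adm N' g') {s : ℂ}
    (hs : g + 1 < s.re) (hs' : g' + 1 < s.re) :
    eulerP (Sum.elim N N') s = eulerP N s * eulerP N' s :=
  Multipliable.tprod_sum (multipliable h hs) (multipliable h' hs')

/-- Invariance. -/
lemma eulerP_equiv {N : S → ℕ} {N' : S' → ℕ} (e : S ≃ S') (he : ∀ x, N' (e x) = N x) (s : ℂ) :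
    eulerP N s = eulerP N' s := by
  rw [eulerP, eulerP, ← e.tprod_eq]
  simp only [he]

/-- the coefficients of the logarithm -/
noncomputable def co (N : S → ℕ) (q : ℕ) : ℂ :=
  ∑' p : ((fun p : S × ℕ => N p.1 ^ (p.2 + 1)) ⁻¹' {q}), 1 / ((p.1.2 : ℂ) + 1)

lemma hasSum_lgE {N : S → ℕ} {g : ℕ} (h : Adm N g) {s : ℂ} (hs : g + 1 < s.re) :
    HasSum (fun q : ℕ => co N q * (q : ℂ) ^ (-s)) (lgE N s) := by
  have h1 := (summable_lt h hs).hasSum.tsum_fiberwise (fun p : S × ℕ => N p.1 ^ (p.2 + 1))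
  have h2 : (fun q : ℕ => co N q * (q : ℂ) ^ (-s)) = fun q : ℕ =>
      ∑' p : ((fun p : S × ℕ => N p.1 ^ (p.2 + 1)) ⁻¹' {q}), ltm N s p.1 := by
    funext q
    rw [co, ← tsum_mul_right]
    apply tsum_congr
    rintro ⟨⟨x, k⟩, hp⟩
    have hp2 : N x ^ (k + 1) = q := hp
    have h3 : (q : ℂ) ^ (-s) = ((N x : ℂ) ^ (-s)) ^ (k + 1) := by
      rw [← hp2, Nat.cast_pow, ← natCast_cpow_natCast_mul, cpow_nat_mul]
    change 1 / ((k : ℂ) + 1) * (q : ℂ) ^ (-s) = ((N x : ℂ) ^ (-s)) ^ (k + 1) / ((k : ℂ) + 1)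
    rw [h3]
    ring
  rw [h2]
  exact h1

lemma co_zero {N : S → ℕ} {g : ℕ} (h : Adm N g) : co N 0 = 0 := by
  have : IsEmpty ((fun p : S × ℕ => N p.1 ^ (p.2 + 1)) ⁻¹' {0}) := by
    constructor
    rintro ⟨⟨x, k⟩, hp⟩
    have h1 : N x ^ (k + 1) = 0 := hp
    have h2 := h.two x
    exact absurd (pow_eq_zero_iff (Nat.succ_ne_zero k) |>.mp h1) (by omega)
  rw [co, tsum_empty]

lemma cpow_shift {q : ℕ} (hq : q ≠ 0) (r : ℕ) (s : ℂ) :
    (q : ℂ) ^ r * (q : ℂ) ^ (-s) = (q : ℂ) ^ (-(s - r)) := by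
  have hq' : (q : ℂ) ≠ 0 := by exact_mod_cast hq
  rw [← cpow_natCast, ← cpow_add _ _ hq']
  congr 1
  ring

/-- The Euler product of an affine bundle of rank `r`. -/
lemma eulerP_shift {N : S → ℕ} {N' : S' → ℕ} {g g' : ℕ} (h : Adm N g) (h' : Adm N' g') (r : ℕ)
    (hc : ∀ q, co N' q = (q : ℂ) ^ r * co N q) {s : ℂ} (hs' : g' + 1 < s.re)
    (hs : g + 1 < (s - r).re) : eulerP N' s = eulerP N (s - r) := by
  rw [eulerP_eq h' hs', eulerP_eq h hs]
  congr 1
  rw [← (hasSum_lgE h' hs').tsum_eq, ← (hasSum_lgE h hs).tsum_eq]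
  apply tsum_congr
  intro q
  by_cases hq : q = 0
  · rw [hq, co_zero h, co_zero h', zero_mul, zero_mul]
  · rw [hc, ← cpow_shift hq r s]
    ring

/-- The Euler product of `X × 𝔾_m`. -/
lemma eulerP_torus {N : S → ℕ} {N' : S' → ℕ} {g g' : ℕ} (h : Adm N g) (h' : Adm N' g')
    (hc : ∀ q, co N' q = ((q : ℂ) - 1) * co N q) {s : ℂ} (hs' : g' + 1 < s.re)
    (hs : g + 1 < (s - 1).re) : eulerP N' s = eulerP N (s - 1) / eulerP N s := by
  have hs2 : g + 1 < s.re := by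
    rw [sub_re, one_re] at hs
    linarith
  rw [eulerP_eq h' hs', eulerP_eq h hs, eulerP_eq h hs2, ← exp_sub]
  congr 1
  rw [← (hasSum_lgE h' hs').tsum_eq]
  have h1 := (hasSum_lgE h hs).sub (hasSum_lgE h hs2)
  rw [← h1.tsum_eq]
  apply tsum_congr
  intro q
  by_cases hq : q = 0
  · rw [hq, co_zero h, co_zero h', zero_mul, zero_mul, sub_zero]
  · have h2 := cpow_shift hq 1 s
    rw [pow_one, Nat.cast_one] at h2
    rw [hc, ← h2]
    ring

end Pool.Agent.Y116.UV
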