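import Pool.Agent.Y116.UV.ZetaA
import Pool.Agent.TH789.LT.FF

/-!
# Maximal ideals and points over finite fields
-/

set_option autoImplicit false
set_option linter.unusedSectionVars false

namespace Pool.Agent.Y116.UV

open Pool.Agent.TH789.LT (jac_int finite_of_fg)

section FiniteFields

variable (K F : Type) [Field K] [Finite K] [Field F] [Finite F]

/-- ring homomorphisms and algebra homomorphisms -/
noncomputable def algHomEquiv (p : ℕ) [Algebra (ZMod p) K] [Algebra (ZMod p) F] :
    (K →ₐ[ZMod p] F) ≃ (K →+* F) :=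
  Equiv.ofBijective (fun f => (f : K →+* F)) ⟨fun f g h => by
      ext x
      exact congrArg (fun k : K →+* F => k x) h,
    fun f => ⟨⟨f, fun r => congrArg (fun k : ZMod p →+* F => k r)
      (Subsingleton.elim (f.comp (algebraMap (ZMod p) K)) (algebraMap (ZMod p) F))⟩, by
        ext x
        rfl⟩⟩

lemma exists_pow_of_hom (f : K →+* F) : ∃ k, Nat.card K ^ (k + 1) = Nat.card F := by
  let _ : Algebra K F := f.toAlgebra
  have h1 : Module.Finite K F := Module.Finite.of_finite
  have h2 : Nat.card F = Nat.card K ^ Module.finrank K F := Module.natCard_eq_pow_finrank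
  have h3 : 0 < Module.finrank K F := Module.finrank_pos
  exact ⟨Module.finrank K F - 1, by rw [Nat.sub_add_cancel h3, h2]⟩

lemma card_hom_of_pow {p n k : ℕ} (hp : p.Prime) (hF : Nat.card F = p ^ n)
    (h : Nat.card K ^ (k + 1) = Nat.card F) :
    (k + 1) * Nat.card (K →+* F) = n ∧ Nonempty (K →+* F) := by
  have hp' : Fact p.Prime := ⟨hp⟩
  obtain ⟨d, -, hd⟩ : ∃ d ≤ n, Nat.card K = p ^ d := by
    rw [← Nat.dvd_prime_pow hp, ← hF, ← h]
    exact dvd_pow_self _ (Nat.succ_ne_zero k)
  have := Fintype.ofFinite K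
  have := Fintype.ofFinite F
  have hK : CharP K p := charP_of_card_eq_prime_pow (f := d) (by
    rw [← Nat.card_eq_fintype_card, hd])
  have hF' : CharP F p := charP_of_card_eq_prime_pow (f := n) (by
    rw [← Nat.card_eq_fintype_card, hF])
  let _ : Algebra (ZMod p) K := ZMod.algebra K p
  let _ : Algebra (ZMod p) F := ZMod.algebra F p
  have h1 : Module.finrank (ZMod p) K = d := by
    apply Nat.pow_right_injective hp.two_le
    change p ^ Module.finrank (ZMod p) K = p ^ d
    rw [FiniteField.pow_finrank_eq_natCard, hd]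
  have h2 : Module.finrank (ZMod p) F = n := by
    apply Nat.pow_right_injective hp.two_le
    change p ^ Module.finrank (ZMod p) F = p ^ n
    rw [FiniteField.pow_finrank_eq_natCard, hF]
  have h3 : n = d * (k + 1) := by
    apply Nat.pow_right_injective hp.two_le
    change p ^ n = p ^ (d * (k + 1))
    rw [← hF, ← h, hd, pow_mul]
  have h4 : Module.finrank (ZMod p) K ∣ Module.finrank (ZMod p) F := by
    rw [h1, h2, h3]
    exact dvd_mul_right _ _
  constructor
  · rw [← Nat.card_congr (algHomEquiv K F p), FiniteField.natCard_algHom_of_finrank_dvd h4, h1, h3,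
      mul_comm]
  · obtain ⟨f⟩ := FiniteField.nonempty_algHom_of_finrank_dvd h4
    exact ⟨f⟩

end FiniteFields

section

variable {A : Type} [CommRing A]

/-- the maximal ideals in `V` -/
def mx (V : Set (Ideal A)) : Type := {I : Ideal A // I.IsMaximal ∧ I ∈ V}

/-- the norm of a maximal ideal -/
noncomputable def nm (V : Set (Ideal A)) (I : mx V) : ℕ := Nat.card (A ⧸ I.1)

/-- the points with values in the field `F` -/
def hm (V : Set (Ideal A)) (F : Type) [Field F] : Type := {φ : A →+* F // RingHom.ker φ ∈ V}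

lemma finite_quot [Algebra.FiniteType ℤ A] (I : Ideal A) (hI : I.IsMaximal) : Finite (A ⧸ I) := by
  let _ : Field (A ⧸ I) := Ideal.Quotient.field I
  have h0 : Algebra.FiniteType ℤ (A ⧸ I) :=
    Algebra.FiniteType.of_surjective ((Ideal.Quotient.mkₐ A I).restrictScalars ℤ)
      Ideal.Quotient.mk_surjective
  have hJ : IsJacobsonRing ℤ := jac_int
  have h1 : Module.Finite ℤ (A ⧸ I) := finite_of_finite_type_of_isJacobsonRing ℤ (A ⧸ I)
  exact finite_of_fg _

lemma ker_max (F : Type) [Field F] [Finite F] (φ : A →+* F) : (RingHom.ker φ).IsMaximal := by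
  have h1 : Finite (A ⧸ RingHom.ker φ) := Finite.of_injective _ (RingHom.kerLift_injective φ)
  have h2 : (RingHom.ker φ).IsPrime := RingHom.ker_isPrime φ
  exact Ideal.Quotient.maximal_of_isField _ (Finite.isField_of_domain _)

variable [Algebra.FiniteType ℤ A] (V : Set (Ideal A))

lemma two_le_nm (I : mx V) : 2 ≤ nm V I := by
  have h1 := finite_quot I.1 I.2.1
  have h2 : Nontrivial (A ⧸ I.1) := Ideal.Quotient.nontrivial_iff.mpr I.2.1.ne_top
  exact Finite.one_lt_card

/-- generators give a bound for the number of points -/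
lemma exists_bound (A : Type) [CommRing A] [h : Algebra.FiniteType ℤ A] :
    ∃ g : ℕ, ∀ (F : Type) [Field F] [Finite F],
      Finite (A →+* F) ∧ Nat.card (A →+* F) ≤ Nat.card F ^ g := by
  obtain ⟨g, φ, hφ⟩ := Algebra.FiniteType.iff_quotient_mvPolynomial''.mp h
  refine ⟨g, fun F _ _ => ?_⟩
  have h1 : Function.Injective fun (ψ : A →+* F) (i : Fin g) => ψ (φ (MvPolynomial.X i)) := by
    intro ψ ψ' h
    apply RingHom.ext
    intro a
    obtain ⟨p, rfl⟩ := hφ a
    have h2 : ψ.comp φ.toRingHom = ψ'.comp φ.toRingHom := by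
      apply MvPolynomial.ringHom_ext
      · intro r
        change ψ (φ (MvPolynomial.C r)) = ψ' (φ (MvPolynomial.C r))
        rw [← MvPolynomial.algebraMap_eq, AlgHom.commutes]
        simp
      · intro i
        exact congrFun h i
    exact congrArg (fun k : MvPolynomial (Fin g) ℤ →+* F => k p) h2
  refine ⟨Finite.of_injective _ h1, ?_⟩
  have h2 := Nat.card_le_card_of_injective _ h1
  rwa [Nat.card_fun, Nat.card_eq_fintype_card (α := Fin g), Fintype.card_fin] at h2

instance hm_finite (F : Type) [Field F] [Finite F] : Finite (hm V F) := by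
  obtain ⟨g, hg⟩ := exists_bound A
  have := (hg F).1
  exact Subtype.finite

/-- the fibre of the norm of pairs -/
abbrev fib (q : ℕ) : Type := ((fun p : mx V × ℕ => nm V p.1 ^ (p.2 + 1)) ⁻¹' {q} : Set _)

/-- points and homomorphisms of residue fields -/
noncomputable def toHm (F : Type) [Field F] [Finite F] :
    (Σ t : fib V (Nat.card F), (A ⧸ t.1.1.1 →+* F)) → hm V F := fun t =>
  ⟨t.2.comp (Ideal.Quotient.mk _), by
    have h1 := t.1.1.1.2.1
    let _ : Field (A ⧸ t.1.1.1.1) := Ideal.Quotient.field _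
    have h2 : RingHom.ker (t.2.comp (Ideal.Quotient.mk t.1.1.1.1)) = t.1.1.1.1 := by
      ext a
      rw [RingHom.mem_ker, RingHom.comp_apply, map_eq_zero_iff _ t.2.injective,
        Ideal.Quotient.eq_zero_iff_mem]
    rw [h2]
    exact t.1.1.1.2.2⟩

lemma ker_toHm (F : Type) [Field F] [Finite F]
    (t : Σ t : fib V (Nat.card F), (A ⧸ t.1.1.1 →+* F)) :
    RingHom.ker (toHm V F t).1 = t.1.1.1.1 := by
  have h1 := t.1.1.1.2.1
  let _ : Field (A ⧸ t.1.1.1.1) := Ideal.Quotient.field _
  ext a
  change t.2 (Ideal.Quotient.mk _ a) = 0 ↔ _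
  rw [map_eq_zero_iff _ t.2.injective, Ideal.Quotient.eq_zero_iff_mem]

lemma toHm_bijective (F : Type) [Field F] [Finite F] : Function.Bijective (toHm V F) := by
  constructor
  · rintro ⟨⟨⟨I, k⟩, hk⟩, f⟩ ⟨⟨⟨I', k'⟩, hk'⟩, f'⟩ h
    have hI : I = I' := by
      apply Subtype.ext
      have h1 := ker_toHm V F ⟨⟨⟨I, k⟩, hk⟩, f⟩
      rw [h, ker_toHm] at h1
      exact h1.symm
    subst hI
    have hkk : k = k' := by
      have h1 : nm V I ^ (k + 1) = Nat.card F := hk
      have h2 : nm V I ^ (k' + 1) = Nat.card F := hk'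
      have h3 := Nat.pow_right_injective (two_le_nm V I) (h1.trans h2.symm)
      simpa using h3
    subst hkk
    have hf : f = f' := by
      apply Ideal.Quotient.ringHom_ext
      exact congrArg Subtype.val h
    rw [hf]
  · rintro ⟨φ, hφ⟩
    have hm := ker_max F φ
    let I : mx V := ⟨RingHom.ker φ, hm, hφ⟩
    have h1 := finite_quot I.1 I.2.1
    let _ : Field (A ⧸ I.1) := Ideal.Quotient.field _
    let f : A ⧸ I.1 →+* F := RingHom.kerLift φ
    obtain ⟨k, hk⟩ := exists_pow_of_hom (A ⧸ I.1) F f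
    refine ⟨⟨⟨⟨I, k⟩, hk⟩, f⟩, ?_⟩
    apply Subtype.ext
    apply RingHom.ext
    intro a
    exact RingHom.kerLift_mk φ a

/-- The coefficients of the logarithm of the Euler product are numbers of points. -/
theorem co_eq {p n : ℕ} (hp : p.Prime) (F : Type) [Field F] [Finite F]
    (hF : Nat.card F = p ^ n) : (n : ℂ) * co (nm V) (p ^ n) = Nat.card (hm V F) := by
  rw [← hF]
  have hne : ∀ t : fib V (Nat.card F),
      (t.1.2 + 1) * Nat.card (A ⧸ t.1.1.1 →+* F) = n ∧ Nonempty (A ⧸ t.1.1.1 →+* F) := by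
    intro t
    have h1 := finite_quot t.1.1.1 t.1.1.2.1
    have h2 := t.1.1.2.1
    let _ : Field (A ⧸ t.1.1.1) := Ideal.Quotient.field _
    exact card_hom_of_pow (A ⧸ t.1.1.1) F hp hF t.2
  have hfin : Finite (fib V (Nat.card F)) := by
    let f : ∀ t : fib V (Nat.card F), (A ⧸ t.1.1.1 →+* F) := fun t => (hne t).2.some
    have hf : Function.Injective fun t : fib V (Nat.card F) => toHm V F ⟨t, f t⟩ := by
      intro t t' h
      exact congrArg Sigma.fst ((toHm_bijective V F).1 h)
    exact Finite.of_injective _ hf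
  have := Fintype.ofFinite (fib V (Nat.card F))
  have hfin2 : ∀ t : fib V (Nat.card F), Finite (A ⧸ t.1.1.1 →+* F) := by
    intro t
    have hf : Function.Injective fun f : (A ⧸ t.1.1.1 →+* F) => toHm V F ⟨t, f⟩ := by
      intro f f' h
      exact eq_of_heq (Sigma.mk.inj ((toHm_bijective V F).1 h)).2
    exact Finite.of_injective _ hf
  rw [← Nat.card_congr (Equiv.ofBijective _ (toHm_bijective V F)), Nat.card_sigma, co,
    tsum_fintype, Finset.mul_sum, Nat.cast_sum]
  apply Finset.sum_congr rfl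
  intro t _
  have h1 := (hne t).1
  have h2 : ((t.1.2 : ℂ) + 1) * (Nat.card (A ⧸ t.1.1.1 →+* F) : ℂ) = n := by
    rw [← h1]
    push_cast
    ring
  have h3 : (t.1.2 : ℂ) + 1 ≠ 0 := Nat.cast_add_one_ne_zero _
  field_simp
  rw [← h2]

lemma nm_prime_pow (I : mx V) : ∃ p n : ℕ, p.Prime ∧ nm V I = p ^ n := by
  have h1 := finite_quot I.1 I.2.1
  have h2 := I.2.1
  let _ : Field (A ⧸ I.1) := Ideal.Quotient.field _
  have := Fintype.ofFinite (A ⧸ I.1)
  obtain ⟨p, -, n, hp, h3⟩ := FiniteField.card' (A ⧸ I.1)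
  exact ⟨p, n, hp, by rw [nm, Nat.card_eq_fintype_card, h3]⟩

lemma co_eq_zero {q : ℕ} (hq : ¬ ∃ p n : ℕ, p.Prime ∧ n ≠ 0 ∧ q = p ^ n) : co (nm V) q = 0 := by
  have : IsEmpty (fib V q) := by
    constructor
    rintro ⟨⟨I, k⟩, hk⟩
    have h1 : nm V I ^ (k + 1) = q := hk
    obtain ⟨p, n, hp, h2⟩ := nm_prime_pow V I
    apply hq
    refine ⟨p, n * (k + 1), hp, ?_, by rw [← h1, h2, pow_mul]⟩
    rintro h3
    have h4 : n = 0 := by
      rcases Nat.mul_eq_zero.mp h3 with h | h
      · exact h
      · omega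
    have h5 := two_le_nm V I
    rw [h2, h4, pow_zero] at h5
    omega
  rw [co, tsum_empty]

/-- The maximal ideals are an admissible system. -/
theorem exists_adm : ∃ g, Adm (nm V) g := by
  obtain ⟨g, hg⟩ := exists_bound A
  have key : ∀ q : ℕ, {I : mx V | nm V I = q}.Finite ∧ {I : mx V | nm V I = q}.ncard ≤ q ^ g := by
    intro q
    by_cases hne : {I : mx V | nm V I = q}.Nonempty
    · obtain ⟨I0, hI0⟩ := hne
      have hI0' : nm V I0 = q := hI0
      have h1 := finite_quot I0.1 I0.2.1
      have h2 := I0.2.1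
      let F : Type := A ⧸ I0.1
      let _ : Field F := Ideal.Quotient.field _
      have hF : Nat.card F = q := hI0
      have h3 := hg F
      have h4 := h3.1
      have h5 : ∀ I : {I : mx V | nm V I = q}, Nonempty (A ⧸ I.1.1 ≃+* F) := by
        intro I
        have h6 := finite_quot I.1.1 I.1.2.1
        have h7 := I.1.2.1
        let _ : Field (A ⧸ I.1.1) := Ideal.Quotient.field _
        have := Fintype.ofFinite (A ⧸ I.1.1)
        have := Fintype.ofFinite F
        refine ⟨FiniteField.ringEquivOfCardEq (K := A ⧸ I.1.1) (K' := F) ?_⟩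
        rw [← Nat.card_eq_fintype_card, ← Nat.card_eq_fintype_card, hF]
        exact I.2
      let f : {I : mx V | nm V I = q} → (A →+* F) := fun I =>
        ((h5 I).some : A ⧸ I.1.1 →+* F).comp (Ideal.Quotient.mk _)
      have hf : Function.Injective f := by
        intro I I' h
        have h6 : ∀ J : {I : mx V | nm V I = q}, RingHom.ker (f J) = J.1.1 := by
          intro J
          ext a
          change (h5 J).some (Ideal.Quotient.mk _ a) = 0 ↔ _
          rw [map_eq_zero_iff _ (h5 J).some.injective, Ideal.Quotient.eq_zero_iff_mem]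
        apply Subtype.ext
        apply Subtype.ext
        rw [← h6 I, ← h6 I', h]
      have h6 : Finite {I : mx V | nm V I = q} := Finite.of_injective f hf
      refine ⟨Set.toFinite _, ?_⟩
      rw [← Nat.card_coe_set_eq]
      calc Nat.card {I : mx V | nm V I = q} ≤ Nat.card (A →+* F) :=
            Nat.card_le_card_of_injective f hf
        _ ≤ q ^ g := by
            rw [← hF]
            exact h3.2
    · rw [Set.not_nonempty_iff_eq_empty.mp hne]
      exact ⟨Set.finite_empty, by rw [Set.ncard_empty]; exact Nat.zero_le _⟩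
  exact ⟨g, two_le_nm V, fun q => (key q).1, fun q => (key q).2⟩

end

/-- Comparison of the numbers of points. -/
theorem co_compare {A B : Type} [CommRing A] [CommRing B] [Algebra.FiniteType ℤ A]
    [Algebra.FiniteType ℤ B] (V : Set (Ideal A)) (W : Set (Ideal B)) (c : ℕ → ℂ)
    (h : ∀ (F : Type) [Field F] [Finite F],
      (Nat.card (hm W F) : ℂ) = c (Nat.card F) * Nat.card (hm V F)) (q : ℕ) :
    co (nm W) q = c q * co (nm V) q := by
  by_cases hq : ∃ p n : ℕ, p.Prime ∧ n ≠ 0 ∧ q = p ^ n
  · obtain ⟨p, n, hp, hn, rfl⟩ := hq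
    have hp' : Fact p.Prime := ⟨hp⟩
    have hF : Nat.card (GaloisField p n) = p ^ n := GaloisField.card p n hn
    have : Finite (GaloisField p n) := Nat.finite_of_card_ne_zero (by
      rw [hF]
      exact pow_ne_zero _ hp.ne_zero)
    have h1 := co_eq V hp (GaloisField p n) hF
    have h2 := co_eq W hp (GaloisField p n) hF
    have h3 := h (GaloisField p n)
    rw [← h1, ← h2, hF] at h3
    have h4 : (n : ℂ) ≠ 0 := by exact_mod_cast hn
    apply mul_left_cancel₀ h4
    rw [h3]
    ring
  · rw [co_eq_zero V hq, co_eq_zero W hq, mul_zero]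

end Pool.Agent.Y116.UV
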