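import Pool.Agent.Y116.UV.ZetaB
import Pool.Agent.Y116.UV.Defs

/-!
# Numbers of points of affine bundles
-/

set_option autoImplicit false
set_option linter.unusedSectionVars false

open MvPolynomial

namespace Pool.Agent.Y116.UV

section Count

variable (F : Type) [Field F] [Finite F]

/-- The number of solutions of a linear equation. -/
lemma card_linear {m : ℕ} (a : Fin m → F) (ha : ∃ l, a l ≠ 0) :
    Nat.card {w : Fin m → F // ∑ l, a l * w l = 1} = Nat.card F ^ (m - 1) := by
  classical
  obtain ⟨l0, hl0⟩ := ha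
  let w0 : Fin m → F := Pi.single l0 (a l0)⁻¹
  let L : (Fin m → F) → F := fun w => ∑ l, a l * w l
  have hL : ∀ w c, L (w + c • w0) = L w + c := by
    intro w c
    have h1 : ∑ l, a l * (c * w0 l) = c := by
      rw [Finset.sum_eq_single l0]
      · simp only [w0, Pi.single_eq_same]
        field_simp
      · intro l _ hl
        simp only [w0, Pi.single_eq_of_ne hl, mul_zero]
      · intro h
        exact absurd (Finset.mem_univ _) h
    calc L (w + c • w0) = ∑ l, (a l * w l + a l * (c * w0 l)) := by
          apply Finset.sum_congr rfl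
          intro l _
          simp only [Pi.add_apply, Pi.smul_apply, smul_eq_mul]
          ring
      _ = L w + c := by rw [Finset.sum_add_distrib, h1]
  let e : (Fin m → F) ≃ F × {w : Fin m → F // ∑ l, a l * w l = 1} :=
    { toFun := fun w => (L w, ⟨w + (1 - L w) • w0, by
        have := hL w (1 - L w)
        rw [add_sub_cancel] at this
        exact this⟩)
      invFun := fun p => p.2.1 + (p.1 - 1) • w0
      left_inv := fun w => by
        funext l
        simp only [Pi.add_apply, Pi.smul_apply, smul_eq_mul]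
        ring
      right_inv := fun p => by
        obtain ⟨c, w, hw⟩ := p
        have hw' : L w = 1 := hw
        have h1 : L (w + (c - 1) • w0) = c := by
          rw [hL, hw']
          ring
        apply Prod.ext
        · exact h1
        · apply Subtype.ext
          funext l
          change (w + (c - 1) • w0) l + (1 - L (w + (c - 1) • w0)) * w0 l = w l
          rw [h1]
          simp only [Pi.add_apply, Pi.smul_apply, smul_eq_mul]
          ring }
  have h1 := Nat.card_congr e
  rw [Nat.card_prod, Nat.card_fun, Nat.card_eq_fintype_card (α := Fin m), Fintype.card_fin] at h1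
  have hm : 0 < m := lt_of_le_of_lt (Nat.zero_le _) l0.2
  have hq : 0 < Nat.card F := Nat.card_pos
  apply Nat.eq_of_mul_eq_mul_left hq
  rw [← h1, ← pow_succ', Nat.sub_add_cancel hm]

variable {A : Type} [CommRing A]

lemma card_hm_univ : Nat.card (hm (Set.univ : Set (Ideal A)) F) = Nat.card (A →+* F) :=
  Nat.card_congr (Equiv.subtypeUnivEquiv fun _ => trivial)

/-- the complement of `f = 0` -/
def neS {m : ℕ} (f : Fin m → A) : Set (Ideal A) := {I | ∃ l, f l ∉ I}

/-- the homomorphism to `F` of a point of the bundle -/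
noncomputable def jouHom {m : ℕ} (f : Fin m → A) (φ : A →+* F) (w : Fin m → F)
    (h : ∑ l, φ (f l) * w l = 1) : Jou f →+* F :=
  Ideal.Quotient.lift _ (eval₂Hom φ w) (by
    intro a ha
    have h1 : Ideal.span {∑ l, C (f l) * X l - 1} ≤ RingHom.ker (eval₂Hom φ w) := by
      rw [Ideal.span_le, Set.singleton_subset_iff]
      change eval₂Hom φ w _ = 0
      rw [map_sub, map_sum, map_one, sub_eq_zero, ← h]
      apply Finset.sum_congr rfl
      intro l _
      rw [map_mul, eval₂Hom_C, eval₂Hom_X']
    exact h1 ha)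

lemma jou_rel {m : ℕ} (f : Fin m → A) (ψ : Jou f →+* F) :
    ∑ l, ψ (Ideal.Quotient.mk _ (C (f l))) * ψ (Ideal.Quotient.mk _ (X l)) = 1 := by
  have h1 : Ideal.Quotient.mk (Ideal.span {∑ l, C (f l) * X l - 1})
      (∑ l, C (f l) * X l - 1) = 0 :=
    Ideal.Quotient.eq_zero_iff_mem.mpr (Ideal.mem_span_singleton_self _)
  rw [map_sub, map_one, sub_eq_zero, map_sum] at h1
  rw [← map_one ψ, ← h1, map_sum]
  apply Finset.sum_congr rfl
  intro l _
  rw [map_mul, map_mul]

lemma jouHom_C {m : ℕ} (f : Fin m → A) (φ : A →+* F) (w : Fin m → F)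
    (h : ∑ l, φ (f l) * w l = 1) (a : A) :
    jouHom F f φ w h (Ideal.Quotient.mk _ (C a)) = φ a := by
  change eval₂Hom φ w (C a) = φ a
  rw [eval₂Hom_C]

lemma jouHom_X {m : ℕ} (f : Fin m → A) (φ : A →+* F) (w : Fin m → F)
    (h : ∑ l, φ (f l) * w l = 1) (l : Fin m) :
    jouHom F f φ w h (Ideal.Quotient.mk _ (X l)) = w l := by
  change eval₂Hom φ w (X l) = w l
  rw [eval₂Hom_X']

/-- points of the bundle -/
noncomputable def jouPts {m : ℕ} (f : Fin m → A)
    (p : Σ φ : hm (neS f) F, {w : Fin m → F // ∑ l, φ.1 (f l) * w l = 1}) : Jou f →+* F :=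
  jouHom F f p.1.1 p.2.1 p.2.2

lemma jouPts_bijective {m : ℕ} (f : Fin m → A) : Function.Bijective (jouPts F f) := by
  constructor
  · rintro ⟨⟨φ, hφ⟩, ⟨w, hw⟩⟩ ⟨⟨φ', hφ'⟩, ⟨w', hw'⟩⟩ h
    have h' : jouHom F f φ w hw = jouHom F f φ' w' hw' := h
    have h1 : φ = φ' := by
      apply RingHom.ext
      intro a
      rw [← jouHom_C F f φ w hw, h', jouHom_C]
    subst h1
    have h2 : w = w' := by
      funext l
      rw [← jouHom_X F f φ w hw, h', jouHom_X]
    subst h2
    rfl
  · intro ψ
    have hφ : RingHom.ker (ψ.comp ((Ideal.Quotient.mk _).comp C)) ∈ neS f := by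
      by_contra h
      have h1 : ∀ l, ψ (Ideal.Quotient.mk _ (C (f l))) = 0 := by
        intro l
        by_contra h2
        exact h ⟨l, h2⟩
      have h2 := jou_rel F f ψ
      simp only [h1, zero_mul, Finset.sum_const_zero] at h2
      exact zero_ne_one h2
    refine ⟨⟨⟨ψ.comp ((Ideal.Quotient.mk _).comp C), hφ⟩,
      ⟨fun l => ψ (Ideal.Quotient.mk _ (X l)), jou_rel F f ψ⟩⟩, ?_⟩
    apply Ideal.Quotient.ringHom_ext
    apply MvPolynomial.ringHom_ext
    · intro a
      exact jouHom_C F f (ψ.comp ((Ideal.Quotient.mk _).comp C))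
        (fun l => ψ (Ideal.Quotient.mk _ (X l))) (jou_rel F f ψ) a
    · intro l
      exact jouHom_X F f (ψ.comp ((Ideal.Quotient.mk _).comp C))
        (fun l => ψ (Ideal.Quotient.mk _ (X l))) (jou_rel F f ψ) l

/-- The number of points of the affine bundle. -/
theorem card_jou [Algebra.FiniteType ℤ A] {m : ℕ} (f : Fin m → A) :
    Nat.card (hm (Set.univ : Set (Ideal (Jou f))) F) =
      Nat.card F ^ (m - 1) * Nat.card (hm (neS f) F) := by
  rw [card_hm_univ, ← Nat.card_congr (Equiv.ofBijective _ (jouPts_bijective F f))]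
  have := Fintype.ofFinite (hm (neS f) F)
  rw [Nat.card_sigma]
  have h1 : ∀ φ : hm (neS f) F, Nat.card {w : Fin m → F // ∑ l, φ.1 (f l) * w l = 1} =
      Nat.card F ^ (m - 1) := by
    intro φ
    obtain ⟨l, hl⟩ := φ.2
    exact card_linear F _ ⟨l, hl⟩
  rw [Finset.sum_congr rfl fun φ _ => h1 φ, Finset.sum_const, Finset.card_univ, smul_eq_mul,
    Nat.card_eq_fintype_card (α := hm (neS f) F), mul_comm]

/-- points of `X × 𝔾_m` -/
noncomputable def torPts (p : (A →+* F) × Fˣ) : LaurentPolynomial A →+* F :=
  LaurentPolynomial.eval₂ p.1 p.2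

lemma torPts_bijective : Function.Bijective (torPts (A := A) F) := by
  constructor
  · rintro ⟨φ, u⟩ ⟨φ', u'⟩ h
    have h1 : φ = φ' := by
      apply RingHom.ext
      intro a
      have h2 := congrArg (fun k : LaurentPolynomial A →+* F => k (LaurentPolynomial.C a)) h
      simpa only [torPts, LaurentPolynomial.eval₂_C] using h2
    have h3 : u = u' := by
      have h2 := congrArg (fun k : LaurentPolynomial A →+* F => k (LaurentPolynomial.T 1)) h
      simp only [torPts, LaurentPolynomial.eval₂_T, zpow_one] at h2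
      exact Units.ext h2
    rw [h1, h3]
  · intro ψ
    let u : Fˣ := Units.map (ψ : LaurentPolynomial A →* F)
      (LaurentPolynomial.isUnit_T (R := A) 1).unit
    refine ⟨(ψ.comp LaurentPolynomial.C, u), ?_⟩
    apply IsLocalization.ringHom_ext (Submonoid.powers (Polynomial.X : Polynomial A))
    apply Polynomial.ringHom_ext
    · intro a
      simp [torPts, LaurentPolynomial.algebraMap_eq_toLaurent, Polynomial.toLaurent_C]
    · simp [torPts, LaurentPolynomial.algebraMap_eq_toLaurent, Polynomial.toLaurent_X, u]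

/-- The number of points of `X × 𝔾_m`. -/
theorem card_tor [Algebra.FiniteType ℤ A] :
    (Nat.card (hm (Set.univ : Set (Ideal (LaurentPolynomial A))) F) : ℂ) =
      ((Nat.card F : ℂ) - 1) * Nat.card (hm (Set.univ : Set (Ideal A)) F) := by
  rw [card_hm_univ, card_hm_univ, ← Nat.card_congr (Equiv.ofBijective _ (torPts_bijective F)),
    Nat.card_prod]
  have := Fintype.ofFinite F
  have h1 : Nat.card Fˣ = Nat.card F - 1 := Nat.card_units F
  have h2 : 1 ≤ Nat.card F := Nat.card_pos
  rw [h1, Nat.cast_mul, Nat.cast_sub h2, Nat.cast_one, mul_comm]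

/-- points of affine spaces -/
theorem card_poly (n : ℕ) :
    Nat.card (hm (Set.univ : Set (Ideal (MvPolynomial (Fin n) ℤ))) F) = Nat.card F ^ n := by
  rw [card_hm_univ]
  have e : (MvPolynomial (Fin n) ℤ →+* F) ≃ (Fin n → F) :=
    { toFun := fun ψ i => ψ (X i)
      invFun := fun w => eval₂Hom (Int.castRingHom F) w
      left_inv := fun ψ => by
        apply MvPolynomial.ringHom_ext
        · intro r
          simp
        · intro i
          simp
      right_inv := fun w => by
        funext i
        simp }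
  rw [Nat.card_congr e, Nat.card_fun, Nat.card_eq_fintype_card (α := Fin n), Fintype.card_fin]

theorem card_int : Nat.card (hm (Set.univ : Set (Ideal ℤ)) F) = 1 := by
  rw [card_hm_univ]
  exact Nat.card_eq_one_iff_unique.mpr ⟨inferInstance, ⟨Int.castRingHom F⟩⟩

end Count

end Pool.Agent.Y116.UV
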