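import Pool.Agent.Y116.UV.ZetaC
import Pool.Agent.TH958.An.Zeta

/-!
# Meromorphic continuation of Euler products
-/

set_option autoImplicit false

open Complex

namespace Pool.Agent.Y116.UV

variable {S S' : Type}

/-- The Euler product extends to a meromorphic function on the complex plane. -/
def Mero (N : S → ℕ) : Prop :=
  ∃ F : ℂ → ℂ, MeromorphicOn F Set.univ ∧ ∃ σ : ℝ, ∀ s : ℂ, σ < s.re → F s = eulerP N s

lemma Mero.equiv {N : S → ℕ} {N' : S' → ℕ} (e : S ≃ S') (he : ∀ x, N' (e x) = N x)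
    (h : Mero N) : Mero N' := by
  obtain ⟨F, hF, σ, hs⟩ := h
  exact ⟨F, hF, σ, fun s hs' => (hs s hs').trans (eulerP_equiv e he s)⟩

lemma Mero.sum {N : S → ℕ} {N' : S' → ℕ} {g g' : ℕ} (hN : Adm N g) (hN' : Adm N' g')
    (h : Mero N) (h' : Mero N') : Mero (Sum.elim N N') := by
  obtain ⟨F, hF, σ, hs⟩ := h
  obtain ⟨F', hF', σ', hs'⟩ := h'
  refine ⟨F * F', hF.mul hF', max (max σ σ') (max (g + 1) (g' + 1)), fun s hs2 => ?_⟩
  rw [max_lt_iff, max_lt_iff, max_lt_iff] at hs2
  rw [Pi.mul_apply, hs s hs2.1.1, hs' s hs2.1.2, eulerP_sum hN hN' hs2.2.1 hs2.2.2]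

lemma Mero.left {N : S → ℕ} {N' : S' → ℕ} {g g' : ℕ} (hN : Adm N g) (hN' : Adm N' g')
    (h : Mero (Sum.elim N N')) (h' : Mero N') : Mero N := by
  obtain ⟨F, hF, σ, hs⟩ := h
  obtain ⟨F', hF', σ', hs'⟩ := h'
  refine ⟨F * F'⁻¹, hF.mul hF'.inv, max (max σ σ') (max (g + 1) (g' + 1)), fun s hs2 => ?_⟩
  rw [max_lt_iff, max_lt_iff, max_lt_iff] at hs2
  rw [Pi.mul_apply, Pi.inv_apply, hs s hs2.1.1, hs' s hs2.1.2,
    eulerP_sum hN hN' hs2.2.1 hs2.2.2, mul_inv_cancel_right₀ (eulerP_ne hN' hs2.2.2)]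

lemma Mero.right {N : S → ℕ} {N' : S' → ℕ} {g g' : ℕ} (hN : Adm N g) (hN' : Adm N' g')
    (h : Mero (Sum.elim N N')) (h' : Mero N) : Mero N' := by
  refine Mero.left hN' hN (Mero.equiv (Equiv.sumComm S S') ?_ h) h'
  rintro (x | x)
  · rfl
  · rfl

lemma meroAt_shift {F : ℂ → ℂ} (hF : MeromorphicOn F Set.univ) (c s : ℂ) :
    MeromorphicAt (fun z => F (z + c)) s :=
  meromorphicAt_fun_comp_add_const_iff_meromorphicAt.mpr (hF _ trivial)

lemma Mero.shift {N : S → ℕ} {N' : S' → ℕ} {g g' : ℕ} (hN : Adm N g) (hN' : Adm N' g') (r : ℕ)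
    (hc : ∀ q, co N' q = (q : ℂ) ^ r * co N q) (h : Mero N') : Mero N := by
  obtain ⟨F, hF, σ, hs⟩ := h
  refine ⟨fun z => F (z + r), fun s _ => meroAt_shift hF r s,
    max σ (max (g + 1) (g' + 1)), fun s hs2 => ?_⟩
  rw [max_lt_iff, max_lt_iff] at hs2
  have h0 : (0 : ℝ) ≤ r := by positivity
  have h1 : (s + r).re = s.re + r := by
    rw [add_re, natCast_re]
  change F (s + r) = eulerP N s
  rw [hs (s + r) (by rw [h1]; linarith)]
  have h2 := eulerP_shift hN hN' r hc (s := s + r) (by rw [h1]; linarith)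
    (by rw [add_sub_cancel_right]; exact hs2.2.1)
  rw [h2, add_sub_cancel_right]

lemma Mero.unshift {N : S → ℕ} {N' : S' → ℕ} {g g' : ℕ} (hN : Adm N g) (hN' : Adm N' g') (r : ℕ)
    (hc : ∀ q, co N' q = (q : ℂ) ^ r * co N q) (h : Mero N) : Mero N' := by
  obtain ⟨F, hF, σ, hs⟩ := h
  refine ⟨fun z => F (z + -r), fun s _ => meroAt_shift hF (-r) s,
    max (σ + r) (max (g + 1 + r) (g' + 1)), fun s hs2 => ?_⟩
  rw [max_lt_iff, max_lt_iff] at hs2
  have h1 : (s + -(r : ℂ)).re = s.re - r := by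
    rw [add_re, neg_re, natCast_re, sub_eq_add_neg]
  change F (s + -(r : ℂ)) = eulerP N' s
  rw [hs (s + -(r : ℂ)) (by rw [h1]; linarith), ← sub_eq_add_neg]
  have h3 : (s - (r : ℂ)).re = s.re - r := by
    rw [sub_re, natCast_re]
  exact (eulerP_shift hN hN' r hc hs2.2.2 (by rw [h3]; linarith)).symm

/-- A functional equation gives the continuation. -/
theorem mero_of_functional (E G : ℂ → ℂ) (σ : ℝ) (hE : ∀ s : ℂ, σ < s.re → MeromorphicAt E s)
    (hG : MeromorphicOn G Set.univ) (h : ∀ s : ℂ, σ < s.re → E s = E (s + 1) * G (s + 1)) :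
    ∃ F : ℂ → ℂ, MeromorphicOn F Set.univ ∧ ∀ s : ℂ, σ < s.re → F s = E s := by
  let Fn : ℕ → ℂ → ℂ := fun n => Nat.rec E (fun _ f s => f (s + 1) * G (s + 1)) n
  have hF0 : ∀ s, Fn 0 s = E s := fun s => rfl
  have hFs : ∀ n s, Fn (n + 1) s = Fn n (s + 1) * G (s + 1) := fun n s => rfl
  have hstep : ∀ (n : ℕ) (s : ℂ), σ < s.re + n → Fn (n + 1) s = Fn n s := by
    intro n
    induction n with
    | zero =>
      intro s hs
      rw [hFs, hF0, hF0]
      exact (h s (by simpa using hs)).symm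
    | succ n ih =>
      intro s hs
      rw [hFs (n + 1) s, hFs n s, ih (s + 1) (by
        rw [add_re, one_re]
        push_cast at hs
        linarith)]
  have hmono : ∀ (n k : ℕ) (s : ℂ), σ < s.re + n → Fn (n + k) s = Fn n s := by
    intro n k s hs
    induction k with
    | zero => rfl
    | succ k ih =>
      rw [← add_assoc, hstep (n + k) s (by
        have : (0 : ℝ) ≤ k := by positivity
        push_cast
        linarith), ih]
  have hmer : ∀ (n : ℕ) (s : ℂ), σ < s.re + n → MeromorphicAt (Fn n) s := by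
    intro n
    induction n with
    | zero =>
      intro s hs
      exact hE s (by simpa using hs)
    | succ n ih =>
      intro s hs
      have h1 : MeromorphicAt (Fn n) (s + 1) := ih (s + 1) (by
        rw [add_re, one_re]
        push_cast at hs
        linarith)
      have h2 : MeromorphicAt (fun z => Fn n (z + 1)) s :=
        meromorphicAt_fun_comp_add_const_iff_meromorphicAt.mpr h1
      exact h2.mul (meroAt_shift hG 1 s)
  let ν : ℂ → ℕ := fun s => ⌈σ - s.re⌉₊ + 1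
  have hν : ∀ s, σ < s.re + ν s := by
    intro s
    have h1 := Nat.le_ceil (σ - s.re)
    have h2 : ((ν s : ℕ) : ℝ) = (⌈σ - s.re⌉₊ : ℝ) + 1 := by
      change (((⌈σ - s.re⌉₊ + 1 : ℕ)) : ℝ) = _
      push_cast
      ring
    rw [h2]
    linarith
  refine ⟨fun s => Fn (ν s) s, ?_, ?_⟩
  · intro s₀ _
    have h1 : MeromorphicAt (Fn (ν s₀ + 1)) s₀ := hmer (ν s₀ + 1) s₀ (by
      have := hν s₀
      push_cast
      linarith)
    refine h1.congr ?_
    have h2 : ∀ᶠ s : ℂ in nhds s₀, s₀.re - 1 < s.re := by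
      have : IsOpen {s : ℂ | s₀.re - 1 < s.re} := isOpen_lt continuous_const continuous_re
      exact this.mem_nhds (by
        change s₀.re - 1 < s₀.re
        linarith)
    filter_upwards [nhdsWithin_le_nhds h2] with s hs
    have h3 : ν s ≤ ν s₀ + 1 := by
      have h4 : ⌈σ - s.re⌉₊ ≤ ⌈σ - s₀.re⌉₊ + 1 := by
        rw [Nat.ceil_le]
        have := Nat.le_ceil (σ - s₀.re)
        push_cast
        linarith
      change ⌈σ - s.re⌉₊ + 1 ≤ ⌈σ - s₀.re⌉₊ + 1 + 1
      omega
    obtain ⟨k, hk⟩ := Nat.exists_eq_add_of_le h3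
    change Fn (ν s₀ + 1) s = Fn (ν s) s
    rw [hk, hmono _ _ _ (hν s)]
  · intro s hs
    have h1 := hmono 0 (ν s) s (by simpa using hs)
    rw [zero_add] at h1
    exact h1

/-- The Euler product is analytic on a half-plane. -/
lemma analyticAt_eulerP {N : S → ℕ} {g : ℕ} (h : Adm N g) {s : ℂ} (hs : g + 2 < s.re) :
    AnalyticAt ℂ (eulerP N) s := by
  have hsum : ∀ s : ℂ, g + 1 < s.re → LSeriesSummable (co N) s ∧ LSeries (co N) s = lgE N s := by
    intro s hs
    have h1 := hasSum_lgE h hs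
    have h2 : LSeries.term (co N) s = fun q : ℕ => co N q * (q : ℂ) ^ (-s) := by
      funext q
      by_cases hq : q = 0
      · rw [hq, LSeries.term_zero, co_zero h, zero_mul]
      · rw [LSeries.term_of_ne_zero hq, cpow_neg, div_eq_mul_inv]
    constructor
    · rw [LSeriesSummable, h2]
      exact h1.summable
    · rw [LSeries, h2]
      exact h1.tsum_eq
  have habs : LSeries.abscissaOfAbsConv (co N) < s.re := by
    have h1 : ((g + 2 : ℝ)) > g + 1 := by linarith
    have h2 := (hsum ((g + 2 : ℝ) : ℂ) (by rw [ofReal_re]; exact h1)).1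
    have h3 := h2.abscissaOfAbsConv_le
    rw [ofReal_re] at h3
    exact lt_of_le_of_lt h3 (by exact_mod_cast hs)
  have h1 : AnalyticAt ℂ (LSeries (co N)) s := LSeries_analyticOnNhd (co N) s habs
  have h2 : AnalyticAt ℂ (fun z => exp (LSeries (co N) z)) s := analyticAt_cexp.comp h1
  refine h2.congr ?_
  have h3 : ∀ᶠ z : ℂ in nhds s, (g : ℝ) + 2 < z.re := by
    have : IsOpen {z : ℂ | (g : ℝ) + 2 < z.re} := isOpen_lt continuous_const continuous_re
    exact this.mem_nhds hs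
  filter_upwards [h3] with z hz
  rw [eulerP_eq h (by linarith), (hsum z (by linarith)).2]

lemma Mero.torus {N : S → ℕ} {N' : S' → ℕ} {g g' : ℕ} (hN : Adm N g) (hN' : Adm N' g')
    (hc : ∀ q, co N' q = ((q : ℂ) - 1) * co N q) (h : Mero N') : Mero N := by
  obtain ⟨G, hG, σ, hs⟩ := h
  obtain ⟨F, hF, hF2⟩ := mero_of_functional (eulerP N) G (max σ (max (g + 2) (g' + 2)))
    (fun s hs2 => by
      rw [max_lt_iff, max_lt_iff] at hs2
      exact (analyticAt_eulerP hN hs2.2.1).meromorphicAt) hG (fun s hs2 => by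
      rw [max_lt_iff, max_lt_iff] at hs2
      have h1 : (s + 1).re = s.re + 1 := by rw [add_re, one_re]
      rw [hs (s + 1) (by rw [h1]; linarith)]
      have h2 := eulerP_torus hN hN' hc (s := s + 1) (by rw [h1]; linarith)
        (by rw [add_sub_cancel_right]; linarith)
      rw [h2, add_sub_cancel_right, mul_div_cancel₀]
      exact eulerP_ne hN (by rw [h1]; linarith))
  exact ⟨F, hF, _, hF2⟩

end Pool.Agent.Y116.UV
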