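import Mathlib

/-!
# Meromorphic continuation of the zeta function of a scheme of finite type over `ℤ`: definition
-/

set_option autoImplicit false

open AlgebraicGeometry

namespace Pool.Agent.Y116.UV

/-- The zeta function of `X` has a meromorphic continuation to `ℂ`: there is a function meromorphic on
`ℂ` that is equal, on some right half-plane, to the Euler product over the closed points of `X`
(this is the property in the statement `S00215`). -/
def HasMeroZeta (X : Scheme.{0}) : Prop :=
  ∃ F : ℂ → ℂ, MeromorphicOn F Set.univ ∧
    ∃ σ : ℝ, ∀ s : ℂ, σ < s.re →
      F s = ∏' x : {x : X // IsClosed ({x} : Set X)},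
        (1 - ((Nat.card (X.residueField x.1) : ℂ) ^ (-s)))⁻¹

end Pool.Agent.Y116.UV
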