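import Pool.Agent.Y116.UV.ZetaD

/-!
# The zeta functions of `Spec ℤ` and of the affine spaces
-/

set_option autoImplicit false

open Complex

namespace Pool.Agent.Y116.UV

/-- the maximal ideal of a prime number -/
noncomputable def prI (p : Nat.Primes) : mx (Set.univ : Set (Ideal ℤ)) :=
  ⟨Ideal.span {((p : ℕ) : ℤ)}, by
    have h1 : Prime ((p : ℕ) : ℤ) := Nat.prime_iff_prime_int.mp p.2
    have h2 : (Ideal.span {((p : ℕ) : ℤ)}).IsPrime :=
      (Ideal.span_singleton_prime h1.ne_zero).mpr h1
    exact h2.isMaximal (by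
      rw [Ne, Ideal.span_singleton_eq_bot]
      exact h1.ne_zero), trivial⟩

lemma prI_bijective : Function.Bijective prI := by
  constructor
  · intro p q h
    have h1 : Ideal.span {((p : ℕ) : ℤ)} = Ideal.span {((q : ℕ) : ℤ)} := congrArg Subtype.val h
    rw [Ideal.span_singleton_eq_span_singleton, Int.associated_iff_natAbs] at h1
    apply Subtype.ext
    simpa using h1
  · rintro ⟨I, hI, -⟩
    obtain ⟨n, hn⟩ := (IsPrincipalIdealRing.principal I).principal
    have h1 : I = Ideal.span {n} := hn
    have hn0 : n ≠ 0 := by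
      rintro rfl
      rw [Ideal.span_singleton_eq_bot.mpr rfl] at h1
      subst h1
      exact Ring.ne_bot_of_isMaximal_of_not_isField hI Int.not_isField rfl
    have h2 : Prime n := by
      rw [← Ideal.span_singleton_prime hn0, ← h1]
      exact hI.isPrime
    refine ⟨⟨n.natAbs, Int.prime_iff_natAbs_prime.mp h2⟩, ?_⟩
    apply Subtype.ext
    change Ideal.span {((n.natAbs : ℕ) : ℤ)} = I
    rw [h1, Ideal.span_singleton_eq_span_singleton, Int.associated_iff_natAbs]
    exact Int.natAbs_natCast _

/-- independence of the structure of an algebra over `ℤ` -/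
lemma ftz {A : Type} [CommRing A] {i : Algebra ℤ A} (h : @Algebra.FiniteType ℤ A _ _ i) :
    @Algebra.FiniteType ℤ A _ _ (Ring.toIntAlgebra A) := by
  have h1 : i = Ring.toIntAlgebra A := Subsingleton.elim _ _
  rw [← h1]
  exact h

lemma ft_mv (R : Type) [CommRing R] (n : ℕ) : Algebra.FiniteType R (MvPolynomial (Fin n) R) :=
  inferInstance

lemma nm_prI (p : Nat.Primes) : nm Set.univ (prI p) = p := by
  have h1 : nm Set.univ (prI p) = Nat.card (ℤ ⧸ Ideal.span {((p : ℕ) : ℤ)}) := rfl
  rw [h1, Nat.card_congr (Int.quotientSpanNatEquivZMod p).toEquiv, Nat.card_zmod]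

lemma mero_int : Mero (nm (Set.univ : Set (Ideal ℤ))) := by
  have h1 : Mero (fun p : Nat.Primes => (p : ℕ)) := by
    refine ⟨riemannZeta, fun s _ => Pool.Agent.TH958.An.zeta_mero s, 1, fun s hs => ?_⟩
    exact (riemannZeta_eulerProduct_tprod hs).symm
  exact h1.equiv (Equiv.ofBijective _ prI_bijective) nm_prI

/-- The zeta function of the affine space extends. -/
lemma mero_space (n : ℕ) : Mero (nm (Set.univ : Set (Ideal (MvPolynomial (Fin n) ℤ)))) := by
  obtain ⟨g, hg⟩ := exists_adm (Set.univ : Set (Ideal ℤ))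
  have hft := ftz (ft_mv ℤ n)
  obtain ⟨g', hg'⟩ := exists_adm (Set.univ : Set (Ideal (MvPolynomial (Fin n) ℤ)))
  refine mero_int.unshift hg hg' n (co_compare _ _ (fun q => (q : ℂ) ^ n) ?_)
  intro F _ _
  rw [card_poly, card_int]
  push_cast
  ring

end Pool.Agent.Y116.UV
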