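import Pool.Agent.Y116.UV.Geo
import Pool.Agent.Y116.UV.ZetaE

/-!
# Closed points of schemes of finite type over `ℤ`
-/

set_option autoImplicit false

open CategoryTheory AlgebraicGeometry TopologicalSpace

namespace Pool.Agent.Y116.UV

/-- The closed points. -/
abbrev pts (X : Scheme.{0}) : Type := {x : X // IsClosed ({x} : Set X)}

/-- The number of elements of the residue field of a closed point. -/
noncomputable def nrm (X : Scheme.{0}) (x : pts X) : ℕ := Nat.card (X.residueField x.1)

section Maps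

variable {X Y : Scheme.{0}} (f : X ⟶ Y)

lemma card_residue [IsPreimmersion f] (x : X) :
    Nat.card (Y.residueField (f x)) = Nat.card (X.residueField x) := by
  apply Nat.card_congr
  apply Equiv.ofBijective (f.residueFieldMap x)
  constructor
  · exact (f.residueFieldMap x).hom.injective
  · intro a
    obtain ⟨b, rfl⟩ := X.residue_surjective x a
    obtain ⟨c, rfl⟩ := f.stalkMap_surjective x b
    refine ⟨Y.residue (f x) c, ?_⟩
    have h := Scheme.residue_residueFieldMap f x
    exact congrArg (fun k => (k.hom : _ → _) c) h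

lemma isClosed_iff_open [IsOpenImmersion f] [JacobsonSpace Y] (x : X) :
    IsClosed ({f x} : Set Y) ↔ IsClosed ({x} : Set X) := by
  have h := f.isOpenEmbedding.preimage_closedPoints
  exact Set.ext_iff.mp h x

lemma isClosed_iff_closed [IsClosedImmersion f] (x : X) :
    IsClosed ({f x} : Set Y) ↔ IsClosed ({x} : Set X) := by
  have h := f.isClosedEmbedding.preimage_closedPoints
  exact Set.ext_iff.mp h x

end Maps

section Triple

variable {Z X U : Scheme.{0}} (i : Z ⟶ X) (j : U ⟶ X) [IsClosedImmersion i] [IsOpenImmersion j]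
  [JacobsonSpace X]

/-- the closed points of a closed and an open part -/
noncomputable def ptsMap : pts Z ⊕ pts U → pts X :=
  Sum.elim (fun z => ⟨i z.1, (isClosed_iff_closed i z.1).mpr z.2⟩)
    (fun u => ⟨j u.1, (isClosed_iff_open j u.1).mpr u.2⟩)

lemma ptsMap_bijective (h : Set.range i = (Set.range j)ᶜ) : Function.Bijective (ptsMap i j) := by
  constructor
  · rintro (z | u) (z' | u') hh
    · have h1 : i z.1 = i z'.1 := congrArg Subtype.val hh
      rw [Subtype.ext (i.isClosedEmbedding.injective h1)]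
    · exfalso
      have h1 : i z.1 = j u'.1 := congrArg Subtype.val hh
      have h2 : i z.1 ∈ (Set.range j)ᶜ := h ▸ ⟨z.1, rfl⟩
      exact h2 ⟨u'.1, h1.symm⟩
    · exfalso
      have h1 : j u.1 = i z'.1 := congrArg Subtype.val hh
      have h2 : i z'.1 ∈ (Set.range j)ᶜ := h ▸ ⟨z'.1, rfl⟩
      exact h2 ⟨u.1, h1⟩
    · have h1 : j u.1 = j u'.1 := congrArg Subtype.val hh
      rw [Subtype.ext (j.isOpenEmbedding.injective h1)]
  · rintro ⟨x, hx⟩
    by_cases h1 : x ∈ Set.range j
    · obtain ⟨u, rfl⟩ := h1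
      exact ⟨Sum.inr ⟨u, (isClosed_iff_open j u).mp hx⟩, rfl⟩
    · have h2 : x ∈ Set.range i := by
        rw [h]
        exact h1
      obtain ⟨z, rfl⟩ := h2
      exact ⟨Sum.inl ⟨z, (isClosed_iff_closed i z).mp hx⟩, rfl⟩

lemma nrm_ptsMap (x : pts Z ⊕ pts U) : nrm X (ptsMap i j x) = Sum.elim (nrm Z) (nrm U) x := by
  rcases x with z | u
  · exact card_residue i z.1
  · exact card_residue j u.1

end Triple

section Affine

variable {A : Type} [CommRing A]

/-- closed points of an affine scheme -/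
noncomputable def ptsAff : pts (Spec (.of A)) ≃ mx (Set.univ : Set (Ideal A)) where
  toFun x := ⟨(x.1 : PrimeSpectrum A).asIdeal,
    (PrimeSpectrum.isClosed_singleton_iff_isMaximal _).mp x.2, trivial⟩
  invFun I := ⟨(⟨I.1, I.2.1.isPrime⟩ : PrimeSpectrum A),
    (PrimeSpectrum.isClosed_singleton_iff_isMaximal _).mpr I.2.1⟩
  left_inv _ := rfl
  right_inv _ := rfl

lemma card_residue_spec (x : PrimeSpectrum A) (hx : x.asIdeal.IsMaximal) :
    Nat.card ((Spec (.of A)).residueField x) = Nat.card (A ⧸ x.asIdeal) := by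
  have h1 : Nat.card ((Spec (.of A)).residueField x) = Nat.card x.asIdeal.ResidueField :=
    Nat.card_congr (Scheme.Spec.residueFieldIso (.of A) x).commRingCatIsoToRingEquiv.toEquiv
  rw [h1]
  exact (Nat.card_congr (Equiv.ofBijective _
    x.asIdeal.bijective_algebraMap_quotient_residueField)).symm

lemma nm_ptsAff (x : pts (Spec (.of A))) : nm Set.univ (ptsAff x) = nrm _ x :=
  (card_residue_spec _ (ptsAff x).2.1).symm

variable {m : ℕ} (f : Fin m → A) {U : Scheme.{0}} (j : U ⟶ Spec (.of A)) [IsOpenImmersion j]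
  [JacobsonSpace (Spec (.of A))]

/-- closed points of the complement of `f = 0` -/
noncomputable def ptsNe (hj : Set.range j = {x : PrimeSpectrum A | ∃ l, f l ∉ x.asIdeal})
    (u : pts U) : mx (neS f) :=
  ⟨(j u.1 : PrimeSpectrum A).asIdeal, (PrimeSpectrum.isClosed_singleton_iff_isMaximal _).mp
    ((isClosed_iff_open j u.1).mpr u.2), by
      have h : j u.1 ∈ {x : PrimeSpectrum A | ∃ l, f l ∉ x.asIdeal} := hj ▸ ⟨u.1, rfl⟩
      exact h⟩

lemma ptsNe_bijective (hj : Set.range j = {x : PrimeSpectrum A | ∃ l, f l ∉ x.asIdeal}) :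
    Function.Bijective (ptsNe f j hj) := by
  constructor
  · intro u u' h
    have h1 : (j u.1 : PrimeSpectrum A).asIdeal = (j u'.1 : PrimeSpectrum A).asIdeal :=
      congrArg Subtype.val h
    have h2 : (j u.1 : PrimeSpectrum A) = j u'.1 := PrimeSpectrum.ext h1
    exact Subtype.ext (j.isOpenEmbedding.injective h2)
  · rintro ⟨I, hI, hI2⟩
    let x : PrimeSpectrum A := ⟨I, hI.isPrime⟩
    have hx : x ∈ {x : PrimeSpectrum A | ∃ l, f l ∉ x.asIdeal} := hI2
    rw [← hj] at hx
    obtain ⟨u, hu⟩ := hx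
    have hu2 : IsClosed ({j u} : Set (Spec (.of A))) := by
      rw [hu]
      exact (PrimeSpectrum.isClosed_singleton_iff_isMaximal x).mpr hI
    refine ⟨⟨u, (isClosed_iff_open j u).mp hu2⟩, ?_⟩
    apply Subtype.ext
    change (j u : PrimeSpectrum A).asIdeal = I
    rw [hu]

lemma nm_ptsNe (hj : Set.range j = {x : PrimeSpectrum A | ∃ l, f l ∉ x.asIdeal}) (u : pts U) :
    nm (neS f) (ptsNe f j hj u) = nrm U u := by
  rw [nrm, ← card_residue j u.1]
  exact (card_residue_spec _ (ptsNe f j hj u).2.1).symm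

end Affine

end Pool.Agent.Y116.UV
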